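import Pool.Agent.MP_570645_al.H38.Sym
import Pool.Agent.MP_570645_al.H18.Eng2

/-! Linearisation, and an Engel Lie ring built from a Lie algebra of operators. -/

set_option autoImplicit false

namespace Pool.Agent.MP_570645_al.H38

open Finset Polynomial H18

attribute [local instance 100] LieRing.ofAssociativeRing

variable {p : ℕ} [Fact p.Prime]

section Lin

variable {E : Type} [Ring E]

theorem coeff_pow01 (x v : E) (n : ℕ) :
    ((C x + X * C v) ^ n).coeff 0 = x ^ n ∧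
    ((C x + X * C v) ^ n).coeff 1 = ∑ i ∈ range n, x ^ i * v * x ^ (n - 1 - i) ∧
    ((C x + X * C v) ^ n).natDegree ≤ n ∧ ((C x + X * C v) ^ n).coeff n = v ^ n := by
  induction n with
  | zero => simp [coeff_one]
  | succ n ih =>
    obtain ⟨h0, h1, h2, h3⟩ := ih
    have hd : (C x + X * C v : E[X]).natDegree ≤ 1 := by
      rw [X_mul_C, add_comm]; exact natDegree_linear_le
    have e : (C x + X * C v) ^ (n + 1) =
        (C x + X * C v) ^ n * C x + (C x + X * C v) ^ n * X * C v := by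
      rw [pow_succ, mul_add, mul_assoc]
    refine ⟨?_, ?_, ?_, ?_⟩
    · rw [e, coeff_add, coeff_mul_C, coeff_mul_C, h0, coeff_mul_X_zero, zero_mul, add_zero,
        pow_succ]
    · rw [e, coeff_add, coeff_mul_C, coeff_mul_C, coeff_mul_X _ 0, h0, h1, sum_range_succ,
        sum_mul]
      congr 1
      · refine sum_congr rfl fun i hi => ?_
        rw [mul_assoc, ← pow_succ]
        congr 2
        have := mem_range.1 hi
        omega
      · simp
    · rw [pow_succ]
      exact natDegree_mul_le.trans (add_le_add h2 hd)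
    · rw [e, coeff_add, coeff_mul_C, coeff_mul_C, coeff_mul_X, h3,
        coeff_eq_zero_of_natDegree_lt (by omega), zero_mul, zero_add, pow_succ]

variable [Algebra (ZMod p) E]

theorem lin_sum (x v : E) (n : ℕ) (hn : n ≤ p) :
    ∑ t : ZMod p, t ^ (p - 2) • (x + t • v) ^ n =
      -(∑ i ∈ range n, x ^ i * v * x ^ (n - 1 - i)) - if n = p then v ^ p else 0 := by
  have hp : 2 ≤ p := (Fact.out : p.Prime).two_le
  obtain ⟨-, h1, h2, h3⟩ := coeff_pow01 x v n
  have e : ∀ t : ZMod p, (x + t • v) ^ n =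
      ∑ j ∈ range (p + 1), t ^ j • ((C x + X * C v) ^ n).coeff j := fun t => by
    let ev : E[X] →+* E := eval₂RingHom' (RingHom.id E) (algebraMap (ZMod p) E t)
      fun a => (Algebra.commutes t a).symm
    have hev : ∀ P, ev P = P.eval₂ (RingHom.id E) (algebraMap (ZMod p) E t) := fun _ => rfl
    have h4 : ev (C x + X * C v) = x + t • v := by
      rw [map_add, map_mul, hev, hev, hev, eval₂_C, eval₂_C, eval₂_X, Algebra.smul_def]; rfl
    rw [← h4, ← map_pow, hev, eval₂_eq_sum_range' _ (n := p + 1) (by omega)]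
    refine sum_congr rfl fun j _ => ?_
    rw [← map_pow, Algebra.smul_def, Algebra.commutes]; rfl
  simp only [e, smul_sum, smul_smul, ← pow_add]
  rw [sum_comm]
  have e2 : ∀ j ∈ range (p + 1),
      ∑ t : ZMod p, t ^ (p - 2 + j) • ((C x + X * C v) ^ n).coeff j =
      (if j = 1 then -((C x + X * C v) ^ n).coeff j else 0) -
        if j = p then ((C x + X * C v) ^ n).coeff j else 0 := by
    intro j hj
    rw [← sum_smul, zsum _ (by have := mem_range.1 hj; omega)]
    by_cases a : j = 1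
    · rw [if_pos (Or.inl (by omega)), if_pos a, if_neg (by omega)]; simp
    · by_cases b : j = p
      · rw [if_pos (Or.inr (by omega)), if_neg a, if_pos b]; simp
      · rw [if_neg (by omega), if_neg a, if_neg b]; simp
  rw [sum_congr rfl e2, sum_sub_distrib, sum_ite_eq', sum_ite_eq', if_pos (mem_range.2 (by omega)),
    if_pos (mem_range.2 (by omega)), h1]
  congr 1
  split_ifs with h
  · rw [← h, h3]
  · exact coeff_eq_zero_of_natDegree_lt (by omega)

omit [Algebra (ZMod p) E] in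
theorem pow_comm_sum (y z : E) (m : ℕ) :
    y ^ m * z = z * y ^ m + ∑ i ∈ range m, y ^ i * (y * z - z * y) * y ^ (m - 1 - i) := by
  induction m with
  | zero => simp
  | succ m ih =>
    have e : ∑ i ∈ range m, y ^ i * (y * z - z * y) * y ^ (m + 1 - 1 - i) =
        (∑ i ∈ range m, y ^ i * (y * z - z * y) * y ^ (m - 1 - i)) * y := by
      rw [sum_mul]
      refine sum_congr rfl fun i hi => ?_
      rw [mul_assoc _ _ y, ← pow_succ]
      congr 2
      have := mem_range.1 hi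
      omega
    rw [sum_range_succ, e, ← sub_eq_iff_eq_add'.2 ih]
    simp only [Nat.add_sub_cancel, Nat.sub_self, pow_zero, mul_one, pow_succ]
    noncomm_ring

theorem ad_pow (x v : E) :
    (fun w => x * w - w * x)^[p - 1] v = ∑ i ∈ range p, x ^ i * v * x ^ (p - 1 - i) := by
  have hp : 2 ≤ p := (Fact.out : p.Prime).two_le
  let L : Module.End (ZMod p) E := LinearMap.mulLeft (ZMod p) x
  let R : Module.End (ZMod p) E := LinearMap.mulRight (ZMod p) x
  have hc0 : Commute L R := LinearMap.commute_mulLeft_right x x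
  have hc : Commute L (-R) := hc0.neg_right
  have h1 : (fun w => x * w - w * x) = ⇑(L + -R) := funext fun w => by
    simp [L, R, sub_eq_add_neg]
  rw [h1, ← Module.End.pow_apply, hc.add_pow, Nat.sub_add_cancel (by omega), LinearMap.sum_apply]
  refine sum_congr rfl fun i hi => ?_
  have hi' : i ≤ p - 1 := by have := mem_range.1 hi; omega
  have h2 : (((p - 1).choose i : ℕ) : Module.End (ZMod p) E) = (-1) ^ (p - 1 - i) := by
    have := congrArg (algebraMap (ZMod p) (Module.End (ZMod p) E))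
      (choose_pred (Λ := ZMod p) (p := p) (p - 1 - i) (Nat.sub_le _ _))
    rwa [Nat.choose_symm hi', map_natCast, map_pow, map_neg, map_one] at this
  rw [h2, mul_assoc, ← (Commute.neg_one_right (-R)).mul_pow, mul_neg, mul_one, neg_neg]
  simp [L, R, LinearMap.pow_mulLeft, LinearMap.pow_mulRight, mul_assoc]

end Lin

section Model

variable {R : Type} [AddCommGroup R] [Module (ZMod p) R]
  (𝓛 : LieSubalgebra (ZMod p) (Module.End (ZMod p) R))

/-- The vectors killed by all powers `D ^ (p - 1)`. -/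
def WS : Submodule (ZMod p) R where
  carrier := {φ | ∀ D ∈ 𝓛, (D ^ (p - 1)) φ = 0}
  add_mem' ha hb D hD := by rw [map_add, ha D hD, hb D hD, add_zero]
  zero_mem' D _ := map_zero _
  smul_mem' c _ ha D hD := by rw [map_smul, ha D hD, smul_zero]

theorem WS_inv {Z : Module.End (ZMod p) R} (hZ : Z ∈ 𝓛) {φ : R} (hφ : φ ∈ WS 𝓛) :
    Z φ ∈ WS 𝓛 := by
  have hp : 2 ≤ p := (Fact.out : p.Prime).two_le
  intro D hD
  have h1 := lin_sum (p := p) D (D * Z - Z * D) (p - 1) (Nat.sub_le _ _)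
  rw [if_neg (by omega), sub_zero] at h1
  have h2 := congrArg (fun F : Module.End (ZMod p) R => F φ) h1
  simp only [LinearMap.sum_apply, LinearMap.smul_apply, LinearMap.neg_apply] at h2
  have h3 : D * Z - Z * D ∈ 𝓛 := 𝓛.lie_mem hD hZ
  rw [sum_eq_zero fun t _ => by rw [hφ _ (𝓛.add_mem hD (𝓛.smul_mem t h3)), smul_zero]] at h2
  rw [← Module.End.mul_apply, pow_comm_sum, LinearMap.add_apply, Module.End.mul_apply, hφ D hD,
    map_zero, zero_add, LinearMap.sum_apply]
  exact neg_eq_zero.1 h2.symm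

/-- `z` is the operator `(w, c) ↦ (D w + c φ, 0)`. -/
def Rep (z : Module.End (ZMod p) (WS 𝓛 × ZMod p)) (φ : R) (D : Module.End (ZMod p) R) : Prop :=
  ∀ u : WS 𝓛 × ZMod p, ((z u).1 : R) = D u.1 + u.2 • φ ∧ (z u).2 = 0

variable {𝓛}

theorem exists_rep {φ : R} (hφ : φ ∈ WS 𝓛) {D : Module.End (ZMod p) R} (hD : D ∈ 𝓛) :
    ∃ z, Rep 𝓛 z φ D :=
  ⟨LinearMap.prod (D.restrict (fun _ h => WS_inv 𝓛 hD h) ∘ₗ LinearMap.fst _ _ _ +
      LinearMap.toSpanSingleton (ZMod p) (WS 𝓛) ⟨φ, hφ⟩ ∘ₗ LinearMap.snd _ _ _) 0,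
    fun _ => ⟨rfl, rfl⟩⟩

theorem Rep.lie {z z' : Module.End (ZMod p) (WS 𝓛 × ZMod p)} {φ φ' : R}
    {D D' : Module.End (ZMod p) R} (h : Rep 𝓛 z φ D) (h' : Rep 𝓛 z' φ' D') :
    Rep 𝓛 ⁅z, z'⁆ (D φ' - D' φ) ⁅D, D'⁆ := fun u => by
  simp only [Ring.lie_def, LinearMap.sub_apply, Module.End.mul_apply, Prod.fst_sub, Prod.snd_sub,
    Submodule.coe_sub, (h _).1, (h _).2, (h' _).1, (h' _).2, map_add, map_smul, zero_smul,
    add_zero, sub_zero, smul_sub, and_true]
  abel

theorem Rep.pow {z : Module.End (ZMod p) (WS 𝓛 × ZMod p)} {φ : R} {D : Module.End (ZMod p) R}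
    (h : Rep 𝓛 z φ D) (k : ℕ) : Rep 𝓛 (z ^ (k + 1)) ((D ^ k) φ) (D ^ (k + 1)) := by
  induction k with
  | zero => simpa using h
  | succ k ih =>
    intro u
    rw [pow_succ' z, Module.End.mul_apply, (h _).1, (h _).2, (ih u).1, (ih u).2, pow_succ' D (k + 1),
      pow_succ' D k]
    simp

theorem Rep.pow_p {z : Module.End (ZMod p) (WS 𝓛 × ZMod p)} {φ : R} {D : Module.End (ZMod p) R}
    (h : Rep 𝓛 z φ D) (hD : D ∈ 𝓛) : z ^ p = 0 := by
  have hp : 2 ≤ p := (Fact.out : p.Prime).two_le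
  have hφ : φ ∈ WS 𝓛 := by
    have := (h (0, 1)).1
    simp only [ZeroMemClass.coe_zero, map_zero, one_smul, zero_add] at this
    rw [← this]
    exact Subtype.property _
  have h1 := h.pow (p - 1)
  rw [hφ D hD, pow_succ' D, Nat.sub_add_cancel (by omega)] at h1
  refine LinearMap.ext fun u => Prod.ext (Subtype.ext ?_) (h1 u).2
  rw [(h1 u).1, Module.End.mul_apply, u.1.2 D hD]
  simp

variable (𝓛)

/-- The model. -/
def MM : LieSubalgebra (ZMod p) (Module.End (ZMod p) (WS 𝓛 × ZMod p)) where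
  carrier := {z | ∃ φ, ∃ D ∈ 𝓛, Rep 𝓛 z φ D}
  add_mem' := by
    rintro z z' ⟨φ, D, hD, h⟩ ⟨φ', D', hD', h'⟩
    refine ⟨φ + φ', D + D', 𝓛.add_mem hD hD', fun u => ?_⟩
    simp only [LinearMap.add_apply, Prod.fst_add, Prod.snd_add, Submodule.coe_add, (h _).1,
      (h _).2, (h' _).1, (h' _).2, add_zero, smul_add, and_true]
    abel
  zero_mem' := ⟨0, 0, 𝓛.zero_mem, fun u => by simp⟩
  smul_mem' := by
    rintro c z ⟨φ, D, hD, h⟩
    refine ⟨c • φ, c • D, 𝓛.smul_mem c hD, fun u => ?_⟩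
    simp only [LinearMap.smul_apply, Prod.smul_fst, Prod.smul_snd, Submodule.coe_smul, (h _).1,
      (h _).2, smul_zero, smul_add, and_true]
    rw [smul_comm c u.2 φ]
  lie_mem' := by
    rintro z z' ⟨φ, D, hD, h⟩ ⟨φ', D', hD', h'⟩
    exact ⟨_, _, 𝓛.lie_mem hD hD', h.lie h'⟩

theorem MM_engel (x y : MM 𝓛) : (fun v => ⁅x, v⁆)^[p - 1] y = 0 := by
  have h0 : ∀ z ∈ MM 𝓛, z ^ p = 0 := by
    rintro z ⟨φ, D, hD, h⟩
    exact h.pow_p hD
  have h1 : ∀ k, (((fun v => ⁅x, v⁆)^[k] y : MM 𝓛) : Module.End (ZMod p) (WS 𝓛 × ZMod p)) =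
      (fun w => x.1 * w - w * x.1)^[k] y.1 := fun k => by
    induction k with
    | zero => rfl
    | succ k ih => rw [Function.iterate_succ_apply', Function.iterate_succ_apply', ← ih]; rfl
  apply Subtype.ext
  have h2 := lin_sum (p := p) x.1 y.1 p le_rfl
  rw [if_pos rfl, h0 _ y.2, sub_zero, sum_eq_zero fun t _ => by
    rw [h0 _ ((MM 𝓛).add_mem x.2 ((MM 𝓛).smul_mem t y.2)), smul_zero]] at h2
  rw [h1, ad_pow (p := p)]
  exact neg_eq_zero.1 h2.symm

theorem exists_model (θ : R) (hθ : ∀ D ∈ 𝓛, (D ^ (p - 1)) θ = 0) {ι : Type}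
    (D : ι → Module.End (ZMod p) R) (hD : ∀ i, D i ∈ 𝓛) :
    ∃ (M : Type) (_ : LieRing M), (∀ m : M, p • m = 0) ∧
      (∀ x y : M, (fun v => ⁅x, v⁆)^[p - 1] y = 0) ∧
      ∃ (v : M) (y : ι → M) (ev : M →+ R), ∀ l : List ι, ev (act (l.map y) v) = (l.map D).prod θ := by
  obtain ⟨v, hv⟩ := exists_rep (𝓛 := 𝓛) hθ 𝓛.zero_mem
  choose y hy using fun i => exists_rep (𝓛 := 𝓛) (WS 𝓛).zero_mem (hD i)
  refine ⟨MM 𝓛, inferInstance, fun m => ?_, MM_engel 𝓛, ⟨v, _, _, 𝓛.zero_mem, hv⟩,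
    fun i => ⟨y i, _, _, hD i, hy i⟩,
    AddMonoidHom.mk' (fun z => ((z.1 (0, 1)).1 : R)) fun _ _ => rfl, fun l => ?_⟩
  · rw [← Nat.cast_smul_eq_nsmul (ZMod p), ZMod.natCast_self, zero_smul]
  · have : Rep 𝓛 (act (l.map fun i => (⟨y i, _, _, hD i, hy i⟩ : MM 𝓛))
        ⟨v, _, _, 𝓛.zero_mem, hv⟩ : MM 𝓛).1 ((l.map D).prod θ) 0 := by
      induction l with
      | nil => exact hv
      | cons i l ih =>
        have := (hy i).lie ih
        simp only [map_zero, sub_zero, lie_zero] at this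
        exact this
    simpa using (this (0, 1)).1

end Model

end Pool.Agent.MP_570645_al.H38
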