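import Pool.Agent.MP_570645_al.H38.Star
import Pool.Agent.MP_570645_al.H38.Abs

/-! Infinitesimal points: from the summation identity to the Lie algebra. -/

set_option autoImplicit false

namespace Pool.Agent.MP_570645_al.H38

open Finset H18

attribute [local instance 100] LieRing.ofAssociativeRing

/-- All subwords of the powers `(0 1 … n-1) ^ j`, `j < p`. -/
def allW (p n : ℕ) : List (List (Fin n)) :=
  (List.range p).flatMap fun j => (List.replicate j (List.finRange n)).flatten.sublists'

/-- Those subwords which are permutations. -/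
def wallW (p n : ℕ) : List (List (Fin n)) :=
  (allW p n).filter fun s => s.Perm (List.finRange n)

theorem sum_allW {A : Type} [AddCommMonoid A] (p n : ℕ) (f : List (Fin n) → A) :
    ((allW p n).map f).sum =
      ∑ j ∈ range p, ((List.replicate j (List.finRange n)).flatten.sublists'.map f).sum := by
  unfold allW
  induction p with
  | zero => simp
  | succ p ih => rw [List.range_succ, List.flatMap_append, List.map_append, List.sum_append, ih,
      sum_range_succ]; simp

theorem sum_filter_ite {A ι : Type} [AddCommMonoid A] (l : List ι) (P : ι → Prop) [DecidablePred P]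
    (f : ι → A) :
    ((l.filter fun s => P s).map f).sum = (l.map fun s => if P s then f s else 0).sum := by
  induction l with
  | nil => rfl
  | cons a l ih => by_cases h : P a <;> simp [h, ih]

theorem exists_eps (R : Type) [CommRing R] (n : ℕ) :
    ∃ (Λ : Type) (_ : CommRing Λ) (ι : R →+* Λ) (ε : Fin n → Λ) (co : Λ →+ R),
      (∀ i, ε i * ε i = 0) ∧ ∀ (s : List (Fin n)) (r : R),
        co ((s.map ε).prod * ι r) = if s.Perm (List.finRange n) then r else 0 := by
  classical
  let I : Ideal (MvPolynomial (Fin n) R) :=
    Ideal.span (Set.range fun i => MvPolynomial.monomial (Finsupp.single i 2) 1)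
  let m1 : Fin n →₀ ℕ := Finsupp.equivFunOnFinite.symm fun _ => 1
  have hI : ∀ q ∈ I, ∀ r, MvPolynomial.coeff m1 (r * q) = 0 := by
    intro q hq
    induction hq using Submodule.span_induction with
    | mem q hq =>
      obtain ⟨i, rfl⟩ := hq
      intro r
      rw [MvPolynomial.coeff_mul_monomial', if_neg]
      rw [Finsupp.single_le_iff]
      simp [m1]
    | zero => simp
    | add a b _ _ ha hb => intro r; rw [mul_add, MvPolynomial.coeff_add, ha, hb, add_zero]
    | smul a b _ hb => intro r; rw [smul_eq_mul, ← mul_assoc, hb]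
  have hX : ∀ s : List (Fin n), (s.map (MvPolynomial.X (R := R))).prod =
      MvPolynomial.monomial (s.map fun i => Finsupp.single i 1).sum 1 := fun s => by
    induction s with
    | nil => simp
    | cons a s ih =>
      rw [List.map_cons, List.prod_cons, ih, List.map_cons, List.sum_cons, MvPolynomial.X,
        MvPolynomial.monomial_mul, one_mul]
  have hc : ∀ (s : List (Fin n)) (i : Fin n),
      (s.map fun i => Finsupp.single i 1).sum i = s.count i := fun s i => by
    induction s with
    | nil => simp
    | cons a s ih =>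
      rw [List.map_cons, List.sum_cons, Finsupp.add_apply, ih, List.count_cons,
        Finsupp.single_apply, add_comm]
      simp
  refine ⟨MvPolynomial (Fin n) R ⧸ I, inferInstance, (Ideal.Quotient.mk I).comp MvPolynomial.C,
    fun i => Ideal.Quotient.mk I (MvPolynomial.X i),
    QuotientAddGroup.lift I.toAddSubgroup (MvPolynomial.coeffAddMonoidHom m1)
      fun q hq => by simpa using hI q hq 1, fun i => ?_, fun s r => ?_⟩
  · rw [← map_mul, Ideal.Quotient.eq_zero_iff_mem, ← sq, MvPolynomial.X_pow_eq_monomial]
    exact Ideal.subset_span ⟨i, rfl⟩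
  · have e : (s.map fun i => Ideal.Quotient.mk I (MvPolynomial.X i)).prod *
        ((Ideal.Quotient.mk I).comp MvPolynomial.C) r =
        Ideal.Quotient.mk I ((s.map MvPolynomial.X).prod * MvPolynomial.C r) := by
      rw [map_mul, map_list_prod, List.map_map]; rfl
    rw [e, hX]
    change MvPolynomial.coeff m1 _ = _
    rw [MvPolynomial.C_apply, MvPolynomial.monomial_mul, add_zero, one_mul,
      MvPolynomial.coeff_monomial]
    refine if_congr ?_ rfl rfl
    rw [List.perm_iff_count, Finsupp.ext_iff]
    refine forall_congr' fun i => ?_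
    rw [hc, List.count_eq_one_of_mem (List.nodup_finRange n) (List.mem_finRange i)]
    rfl

section Nil

variable {Λ : Type} [CommRing Λ]

theorem eps_add_pow {ε : Λ} (hε : ε * ε = 0) (s : Λ) (k : ℕ) :
    (ε + s) ^ (k + 1) = s ^ (k + 1) + (k + 1) * ε * s ^ k := by
  induction k with
  | zero => simp [add_comm]
  | succ k ih =>
    rw [pow_succ, ih]
    push_cast
    linear_combination (k + 1) * s ^ k * hε

theorem eps_sum_pow {ι : Type} [DecidableEq ι] (ε : ι → Λ) (hε : ∀ i, ε i * ε i = 0)
    (S : Finset ι) : (∑ i ∈ S, ε i) ^ S.card = (S.card).factorial * ∏ i ∈ S, ε i ∧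
      (∑ i ∈ S, ε i) ^ (S.card + 1) = 0 := by
  induction S using Finset.induction_on with
  | empty => simp
  | insert a S ha ih =>
    rw [sum_insert ha, card_insert_of_notMem ha, prod_insert ha, eps_add_pow (hε a),
      eps_add_pow (hε a), pow_succ _ (S.card + 1), ih.2, ih.1, Nat.factorial_succ]
    constructor
    · push_cast; ring
    · simp

theorem inB_prod {ι : Type} (G : ι → T Λ) (hG : ∀ i, InB (G i)) (l : List ι) :
    InB (l.map G).prod ∧ (l.map G).prod.p0 = (l.map fun i => (G i).p0).sum ∧
      (l.map G).prod.q0 = (l.map fun i => (G i).q0).sum := by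
  induction l with
  | nil => exact ⟨inB_one, rfl, rfl⟩
  | cons a l ih =>
    simp only [List.map_cons, List.prod_cons, List.sum_cons]
    exact ⟨(hG a).mul ih.1, by rw [(hG a).mul_p0 ih.1, ih.2.1], by rw [(hG a).mul_q0 ih.1, ih.2.2]⟩

theorem prod_mul_prod {ι A : Type} [Ring A] [Algebra Λ A] (y : A) (c c' : ι → Λ)
    (h : ∀ i, c i * c' i = 0) (l : List ι) :
    (l.map fun i => 1 + c i • y).prod * (l.map fun i => 1 + c' i • y).prod =
      (l.map fun i => 1 + (c i + c' i) • y).prod := by
  induction l with
  | nil => simp
  | cons a l ih =>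
    have hc : Commute (l.map fun i => 1 + c i • y).prod (1 + c' a • y) := by
      refine Commute.list_prod_left _ _ fun z hz => ?_
      obtain ⟨i, -, rfl⟩ := List.mem_map.1 hz
      exact (Commute.one_left _).add_left ((Commute.one_right _).add_right
        (((Commute.refl y).smul_left _).smul_right _))
    have e : (1 + c a • y) * (1 + c' a • y) = 1 + (c a + c' a) • y := by
      simp only [mul_add, add_mul, one_mul, mul_one, smul_mul_assoc, mul_smul_comm, smul_smul,
        smul_add, h a, mul_comm (c' a), zero_smul, add_smul]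
      abel
    simp only [List.map_cons, List.prod_cons]
    rw [mul_assoc, ← mul_assoc (List.prod _), hc.eq, mul_assoc, ← mul_assoc, e, ih]

theorem prod_pow_eps {ι A : Type} [Ring A] [Algebra Λ A] (y : A) (ε : ι → Λ)
    (h : ∀ i, ε i * ε i = 0) (l : List ι) (j : ℕ) :
    (l.map fun i => 1 + ε i • y).prod ^ j = (l.map fun i => 1 + (j * ε i) • y).prod := by
  induction j with
  | zero => simp
  | succ j ih =>
    rw [pow_succ, ih, prod_mul_prod y _ _ fun i => by rw [mul_assoc, h, mul_zero]]
    simp only [Nat.cast_succ, add_mul, one_mul]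

end Nil

theorem sum_sublists_top {A ι : Type} [AddCommMonoid A] (l : List ι) (f : List ι → A) :
    (l.sublists'.map fun s => if s.length = l.length then f s else 0).sum = f l := by
  induction l generalizing f with
  | nil => simp
  | cons a l ih =>
    rw [List.sublists'_cons, List.map_append, List.sum_append, List.map_map,
      List.sum_eq_zero, zero_add, ← ih fun s => f (a :: s)]
    · congr 2
      funext s
      simp
    · intro z hz
      obtain ⟨s, hs, rfl⟩ := List.mem_map.1 hz
      have := (List.mem_sublists'.1 hs).length_le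
      rw [if_neg (by rw [List.length_cons]; omega)]

section Der

variable {p : ℕ} [Fact p.Prime] {R : Type} [CommRing R] [Algebra (ZMod p) R]

/-- `D` is a derivation which acts on the point `x` as right multiplication by `y`. -/
structure Tan (x : T R) (D : Module.End (ZMod p) R) (y : T (ZMod p)) : Prop where
  der : ∀ a b, D (a * b) = a * D b + b * D a
  lie : InL y
  eq : T.map D x = x * T.map (algebraMap (ZMod p) R) y

theorem Tan.one {x : T R} {D : Module.End (ZMod p) R} {y : T (ZMod p)} (h : Tan x D y) :
    D 1 = 0 := by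
  have := h.der 1 1
  simpa using this

theorem Tan.mul_const {x : T R} {D : Module.End (ZMod p) R} {y : T (ZMod p)} (_ : Tan x D y)
    (a : R) (c : ZMod p) : D (a * algebraMap (ZMod p) R c) = D a * algebraMap (ZMod p) R c := by
  rw [mul_comm, ← Algebra.smul_def, map_smul, Algebra.smul_def, mul_comm]

theorem Tan.map_mul {x : T R} {D : Module.End (ZMod p) R} {y : T (ZMod p)} (h : Tan x D y)
    (u : T R) (z : T (ZMod p)) : T.map D (u * T.map (algebraMap (ZMod p) R) z) =
      T.map D u * T.map (algebraMap (ZMod p) R) z := by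
  ext <;> simp [h.mul_const]

/-- The Lie algebra of the derivations tangent to the group. -/
def LL (x : T R) : LieSubalgebra (ZMod p) (Module.End (ZMod p) R) where
  carrier := {D | ∃ y, Tan x D y}
  add_mem' := by
    rintro D D' ⟨y, h⟩ ⟨y', h'⟩
    refine ⟨y + y', fun a b => ?_, h.lie.add h'.lie, ?_⟩
    · simp only [LinearMap.add_apply, h.der, h'.der]; ring
    · rw [T.map_add, mul_add, ← h.eq, ← h'.eq]
      ext <;> rfl
  zero_mem' := ⟨0, fun a b => by simp, ⟨0, 0, 0, 0, 0, 0, by ext <;> simp [mkL]⟩, by
    ext <;> simp⟩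
  smul_mem' := by
    rintro c D ⟨y, h⟩
    refine ⟨c • y, fun a b => ?_, h.lie.smul c, ?_⟩
    · simp only [LinearMap.smul_apply, h.der, smul_add, mul_smul_comm]
    · rw [T.map_smul, mul_smul_comm, ← h.eq]
      ext <;> exact Algebra.smul_def _ _
  lie_mem' := by
    rintro D D' ⟨y, h⟩ ⟨y', h'⟩
    refine ⟨y * y' + -(y' * y), fun a b => ?_, h.lie.lie h'.lie, ?_⟩
    · simp only [Ring.lie_def, LinearMap.sub_apply, Module.End.mul_apply, h.der, h'.der, map_add]
      ring
    · have e : T.map ⇑(⁅D, D'⁆ : Module.End (ZMod p) R) x =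
          T.map D (T.map D' x) + -T.map D' (T.map D x) := by
        ext <;> exact sub_eq_add_neg _ _
      rw [e, h.eq, h'.eq, h.map_mul, h'.map_mul, h.eq, h'.eq, T.map_add, T.map_neg, T.map_mul,
        T.map_mul, mul_add, mul_neg, mul_assoc, mul_assoc]

variable {Λ : Type} [CommRing Λ] [Algebra (ZMod p) Λ]

theorem Tan.step {x : T R} {D : Module.End (ZMod p) R} {y : T (ZMod p)} (h : Tan x D y)
    (π : R →+* Λ) {ε : Λ} (hε : ε * ε = 0) : ∃ π' : R →+* Λ, (∀ φ, π' φ = π φ + ε * π (D φ)) ∧
      T.map π' x = T.map π x * (1 + ε • T.map (algebraMap (ZMod p) Λ) y) := by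
  refine ⟨{ toFun := fun φ => π φ + ε * π (D φ)
            map_one' := by simp [h.one]
            map_mul' := fun a b => ?_
            map_zero' := by simp
            map_add' := fun a b => by simp only [map_add]; ring }, fun _ => rfl, ?_⟩
  · simp only [h.der, map_add, _root_.map_mul]
    linear_combination -(π (D a) * π (D b)) * hε
  · have e : T.map π (T.map (algebraMap (ZMod p) R) y) = T.map (algebraMap (ZMod p) Λ) y := by
      have : ∀ c, π (algebraMap (ZMod p) R c) = algebraMap (ZMod p) Λ c := fun c =>
        DFunLike.congr_fun (Subsingleton.elim (π.comp (algebraMap (ZMod p) R)) _) c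
      ext <;> exact this _
    rw [mul_add, mul_one, mul_smul_comm, ← e, ← T.map_mul, ← h.eq]
    ext <;> rfl

theorem expand {ι : Type} {x : T R} {D : ι → Module.End (ZMod p) R} {y : ι → T (ZMod p)}
    (h : ∀ i, Tan x (D i) (y i)) {ε : ι → Λ} (hε : ∀ i, ε i * ε i = 0) (l : List ι)
    (π : R →+* Λ) : ∃ π' : R →+* Λ,
      (∀ φ, π' φ = (l.sublists'.map fun s => (s.map ε).prod * π ((s.map D).prod φ)).sum) ∧
      T.map π' x =
        T.map π x * (l.map fun i => 1 + ε i • T.map (algebraMap (ZMod p) Λ) (y i)).prod := by
  induction l generalizing π with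
  | nil => exact ⟨π, fun φ => by simp, by simp⟩
  | cons a l ih =>
    obtain ⟨π₁, h1, h2⟩ := (h a).step π (hε a)
    obtain ⟨π₂, h3, h4⟩ := ih π₁
    refine ⟨π₂, fun φ => ?_, by rw [h4, h2, List.map_cons, List.prod_cons, mul_assoc]⟩
    rw [h3, List.sublists'_cons, List.map_append, List.sum_append, List.map_map,
      ← List.sum_map_add]
    congr 2
    funext s
    simp only [h1, Function.comp_apply, List.map_cons, List.prod_cons, Module.End.mul_apply]
    ring

end Der

end Pool.Agent.MP_570645_al.H38
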