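import Mathlib

/-! Polynomial sequences, their top coefficients, and power sums in characteristic `p`. -/

set_option autoImplicit false

namespace Pool.Agent.MP_570645_al.H38

open Finset Polynomial

variable {Λ : Type} [CommRing Λ]

/-- `s` is a polynomial sequence of degree at most `k` whose coefficient of degree `k` is `c`. -/
def Sy (k : ℕ) (c : Λ) (s : ℕ → Λ) : Prop :=
  ∃ P : Λ[X], P.natDegree ≤ k ∧ P.coeff k = c ∧ ∀ j : ℕ, s j = P.eval (j : Λ)

namespace Sy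

theorem congr {k : ℕ} {c c' : Λ} {s s' : ℕ → Λ} (h : Sy k c s) (hc : c = c')
    (hs : ∀ j, s' j = s j) : Sy k c' s' := by
  obtain ⟨P, h1, h2, h3⟩ := h
  exact ⟨P, h1, h2.trans hc, fun j => (hs j).trans (h3 j)⟩

theorem const (c : Λ) : Sy 0 c fun _ => c := ⟨C c, by simp, by simp, by simp⟩

theorem lin (a : Λ) : Sy 1 1 fun j => (j : Λ) - a :=
  ⟨X - C a, by simpa using natDegree_X_sub_C_le a, by simp [coeff_C], by simp⟩

theorem add {k : ℕ} {c c' : Λ} {s s' : ℕ → Λ} (h : Sy k c s) (h' : Sy k c' s') :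
    Sy k (c + c') fun j => s j + s' j := by
  obtain ⟨P, h1, h2, h3⟩ := h
  obtain ⟨Q, g1, g2, g3⟩ := h'
  exact ⟨P + Q, natDegree_add_le_of_degree_le h1 g1, by rw [coeff_add, h2, g2],
    fun j => by rw [eval_add, ← h3, ← g3]⟩

theorem mul {k l : ℕ} {c c' : Λ} {s s' : ℕ → Λ} (h : Sy k c s) (h' : Sy l c' s') :
    Sy (k + l) (c * c') fun j => s j * s' j := by
  obtain ⟨P, h1, h2, h3⟩ := h
  obtain ⟨Q, g1, g2, g3⟩ := h'
  exact ⟨P * Q, natDegree_mul_le.trans (add_le_add h1 g1),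
    by rw [coeff_mul_add_eq_of_natDegree_le h1 g1, h2, g2], fun j => by rw [eval_mul, ← h3, ← g3]⟩

theorem cmul {k : ℕ} {c : Λ} {s : ℕ → Λ} (a : Λ) (h : Sy k c s) :
    Sy k (a * c) fun j => a * s j := by
  have := (const a).mul h
  rwa [zero_add] at this

theorem sub {k : ℕ} {c c' : Λ} {s s' : ℕ → Λ} (h : Sy k c s) (h' : Sy k c' s') :
    Sy k (c - c') fun j => s j - s' j :=
  (h.add (h'.cmul (-1))).congr (by ring) fun _ => by ring

theorem up {k : ℕ} {c : Λ} {s : ℕ → Λ} (h : Sy k c s) : Sy (k + 1) 0 s := by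
  obtain ⟨P, h1, -, h3⟩ := h
  exact ⟨P, by omega, coeff_eq_zero_of_natDegree_lt (by omega), h3⟩

theorem pow {k : ℕ} {c : Λ} {s : ℕ → Λ} (h : Sy k c s) (n : ℕ) :
    Sy (k * n) (c ^ n) fun j => s j ^ n := by
  induction n with
  | zero => simpa using const (1 : Λ)
  | succ n ih => exact (ih.mul h).congr (pow_succ _ _).symm fun _ => pow_succ _ _

end Sy

/-- Falling factorials. -/
def ff1 (j : ℕ) : Λ := j
def ff2 (j : ℕ) : Λ := j * (j - 1)
def ff3 (j : ℕ) : Λ := j * (j - 1) * (j - 2)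
def ff4 (j : ℕ) : Λ := j * (j - 1) * (j - 2) * (j - 3)

theorem sy_ff1 : Sy 1 (1 : Λ) ff1 := (Sy.lin 0).congr rfl fun _ => by simp [ff1]

theorem sy_ff2 : Sy 2 (1 : Λ) ff2 := (sy_ff1.mul (Sy.lin 1)).congr (by simp) fun _ => rfl

theorem sy_ff3 : Sy 3 (1 : Λ) ff3 := (sy_ff2.mul (Sy.lin 2)).congr (by simp) fun _ => rfl

theorem sy_ff4 : Sy 4 (1 : Λ) ff4 := (sy_ff3.mul (Sy.lin 3)).congr (by simp) fun _ => rfl

/-- Twenty-four times the Newton expansion. -/
def nw (a b c d e : Λ) (j : ℕ) : Λ :=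
  24 * a + 24 * b * ff1 j + 12 * c * ff2 j + 4 * d * ff3 j + e * ff4 j

theorem sy_nw0 (a : Λ) : Sy 0 (24 * a) (nw a 0 0 0 0) :=
  (Sy.const _).congr rfl fun _ => by simp [nw]

theorem sy_nw1 (a b : Λ) : Sy 1 (24 * b) (nw a b 0 0 0) :=
  ((sy_nw0 a).up.add (sy_ff1.cmul (24 * b))).congr (by ring) fun _ => by simp [nw]

theorem sy_nw2 (a b c : Λ) : Sy 2 (12 * c) (nw a b c 0 0) :=
  ((sy_nw1 a b).up.add (sy_ff2.cmul (12 * c))).congr (by ring) fun _ => by simp [nw]

theorem sy_nw3 (a b c d : Λ) : Sy 3 (4 * d) (nw a b c d 0) :=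
  ((sy_nw2 a b c).up.add (sy_ff3.cmul (4 * d))).congr (by ring) fun _ => by simp [nw]

/-- Determinants of two vector sequences with proportional top terms. -/
theorem Sy.det {k l : ℕ} {σ1 σ2 τ1 τ2 e e' w1 w2 : Λ} {s1 s2 t1 t2 π π' : ℕ → Λ}
    (h1 : Sy k σ1 s1) (h2 : Sy k σ2 s2) (g1 : Sy l τ1 t1) (g2 : Sy l τ2 t2)
    (hπ : Sy (k + 1) 1 π) (hπ' : Sy (l + 1) 1 π') :
    Sy (k + l + 1) (e * (w1 * τ2 - w2 * τ1) - e' * (w1 * σ2 - w2 * σ1)) fun j =>
      (s1 j + e * w1 * π j) * (t2 j + e' * w2 * π' j) -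
        (s2 j + e * w2 * π j) * (t1 j + e' * w1 * π' j) := by
  have a := ((h1.mul g2).sub (h2.mul g1)).up
  have b := (hπ.mul ((g2.cmul w1).sub (g1.cmul w2))).cmul e
  have c := (((h2.cmul w1).sub (h1.cmul w2)).mul hπ').cmul e'
  rw [show k + 1 + l = k + l + 1 by omega] at b
  exact ((a.add b).sub c).congr (by ring) fun _ => by ring

section Char

variable {p : ℕ} [Fact p.Prime] [Algebra (ZMod p) Λ]

theorem zsum (m : ℕ) (hm : m ≤ 2 * (p - 1)) :
    ∑ x : ZMod p, x ^ m = if m = p - 1 ∨ m = 2 * (p - 1) then -1 else 0 := by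
  have hp : 2 ≤ p := (Fact.out : p.Prime).two_le
  have h1 : ∀ x : ZMod p, x ≠ 0 → x ^ (p - 1) = 1 := fun x hx => ZMod.pow_card_sub_one_eq_one hx
  have h2 : ∑ x : ZMod p, x ^ (p - 1) = -1 := by
    have : ∀ x : ZMod p, x ^ (p - 1) = 1 - if x = 0 then 1 else 0 := fun x => by
      split_ifs with h
      · rw [h, zero_pow (by omega), sub_self]
      · rw [h1 x h, sub_zero]
    simp [this, sum_sub_distrib]
  have h3 : ∀ i, 0 < i → ∑ x : ZMod p, x ^ (p - 1 + i) = ∑ x : ZMod p, x ^ i := fun i hi =>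
    sum_congr rfl fun x _ => by
      by_cases h : x = 0
      · rw [h, zero_pow (by omega), zero_pow (by omega)]
      · rw [pow_add, h1 x h, one_mul]
  have h4 : ∀ i, i < p - 1 → ∑ x : ZMod p, x ^ i = 0 := fun i hi =>
    FiniteField.sum_pow_lt_card_sub_one _ i (by rwa [ZMod.card])
  split_ifs with h
  · rcases h with rfl | rfl
    · exact h2
    · rw [two_mul, h3 _ (by omega), h2]
  · rcases lt_or_ge m (p - 1) with h5 | h5
    · exact h4 m h5
    · obtain ⟨i, rfl⟩ := Nat.exists_eq_add_of_le h5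
      rw [h3 i (by omega), h4 i (by omega)]

theorem sum_range_zmod {A : Type} [AddCommMonoid A] (f : ZMod p → A) :
    ∑ j ∈ range p, f (j : ZMod p) = ∑ x : ZMod p, f x := by
  refine sum_bij (fun j _ => (j : ZMod p)) (fun _ _ => mem_univ _) (fun a ha b hb h => ?_)
    (fun x _ => ⟨x.val, mem_range.2 (ZMod.val_lt x), ZMod.natCast_zmod_val x⟩) fun _ _ => rfl
  have := congrArg ZMod.val h
  rwa [ZMod.val_cast_of_lt (mem_range.1 ha), ZMod.val_cast_of_lt (mem_range.1 hb)] at this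

theorem psum (m : ℕ) (hm : m ≤ 2 * (p - 1)) :
    ∑ j ∈ range p, (j : Λ) ^ m = if m = p - 1 ∨ m = 2 * (p - 1) then -1 else 0 := by
  have h := congrArg (algebraMap (ZMod p) Λ)
    ((sum_range_zmod (fun x : ZMod p => x ^ m)).trans (zsum m hm))
  simp only [map_sum, map_pow, map_natCast] at h
  rw [h]
  split_ifs <;> simp

theorem sum_eval (P : Λ[X]) (hP : P.natDegree ≤ 2 * (p - 1)) :
    ∑ j ∈ range p, P.eval (j : Λ) = -P.coeff (p - 1) - P.coeff (2 * (p - 1)) := by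
  have hp : 2 ≤ p := (Fact.out : p.Prime).two_le
  simp only [eval_eq_sum_range' (Nat.lt_succ_of_le hP)]
  rw [sum_comm]
  have : ∀ i ∈ range (2 * (p - 1) + 1), ∑ j ∈ range p, P.coeff i * (j : Λ) ^ i =
      (if i = p - 1 then -P.coeff i else 0) - if i = 2 * (p - 1) then P.coeff i else 0 := by
    intro i hi
    rw [← mul_sum, psum i (by have := mem_range.1 hi; omega)]
    by_cases h1 : i = p - 1
    · rw [if_pos (Or.inl h1), if_pos h1, if_neg (by omega)]; ring
    · by_cases h2 : i = 2 * (p - 1)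
      · rw [if_pos (Or.inr h2), if_neg h1, if_pos h2]; ring
      · rw [if_neg (by tauto), if_neg h1, if_neg h2]; ring
  rw [sum_congr rfl this, sum_sub_distrib, sum_ite_eq', sum_ite_eq', if_pos (mem_range.2 (by omega)),
    if_pos (mem_range.2 (by omega))]

theorem Sy.sum {c : Λ} {s : ℕ → Λ} (h : Sy (p - 1) c s) : ∑ j ∈ range p, s j = -c := by
  have hp : 2 ≤ p := (Fact.out : p.Prime).two_le
  obtain ⟨P, h1, h2, h3⟩ := h
  simp only [h3]
  rw [sum_eval P (by omega), h2, coeff_eq_zero_of_natDegree_lt (n := 2 * (p - 1)) (by omega),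
    sub_zero]

theorem choose_pred (i : ℕ) (hi : i ≤ p - 1) : (((p - 1).choose i : ℕ) : Λ) = (-1) ^ i := by
  have hp : p.Prime := Fact.out
  induction i with
  | zero => simp
  | succ i ih =>
    have h1 : (p - 1).choose i + (p - 1).choose (i + 1) = p.choose (i + 1) := by
      rw [← Nat.choose_succ_succ, Nat.succ_eq_add_one, Nat.sub_add_cancel hp.one_le]
    have h2 : ((p.choose (i + 1) : ℕ) : Λ) = 0 := by
      obtain ⟨c, hc⟩ := hp.dvd_choose_self (Nat.succ_ne_zero i) (by have := hp.two_le; omega)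
      have h0 : ((p : ℕ) : Λ) = 0 := by
        rw [← map_natCast (algebraMap (ZMod p) Λ), ZMod.natCast_self, map_zero]
      rw [Nat.succ_eq_add_one] at hc
      rw [hc, Nat.cast_mul, h0, zero_mul]
    rw [← h1, Nat.cast_add, ih (by omega)] at h2
    rw [pow_succ]
    linear_combination h2

theorem coeff_lin_pow (r w : Λ) (n i : ℕ) (hi : i ≤ n) :
    ((C w * X + C r) ^ n).coeff i = w ^ i * r ^ (n - i) * n.choose i := by
  rw [add_pow, finsetSum_coeff, sum_eq_single i]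
  · rw [mul_pow, ← C_pow, ← C_pow, ← C_eq_natCast, coeff_mul_C, coeff_mul_C, coeff_C_mul,
      coeff_X_pow, if_pos rfl, mul_one]
  · intro b _ hb
    rw [mul_pow, ← C_pow, ← C_pow, ← C_eq_natCast, coeff_mul_C, coeff_mul_C, coeff_C_mul,
      coeff_X_pow, if_neg hb.symm, mul_zero, zero_mul, zero_mul]
  · intro h
    exact absurd (mem_range.2 (by omega)) h

theorem sum_uv (r1 r2 w1 w2 : Λ) :
    ∑ j ∈ range p, ((r1 + j * w1) * (r2 + j * w2)) ^ (p - 1) =
      -(r2 * w1 - r1 * w2) ^ (p - 1) - (w1 * w2) ^ (p - 1) := by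
  have hd : ∀ r w : Λ, ((C w * X + C r) ^ (p - 1)).natDegree ≤ p - 1 := fun r w =>
    natDegree_pow_le.trans (by
      have := Nat.mul_le_mul_left (p - 1) (natDegree_linear_le (a := w) (b := r))
      rwa [mul_one] at this)
  have h := sum_eval (p := p) ((C w1 * X + C r1) ^ (p - 1) * (C w2 * X + C r2) ^ (p - 1))
    (natDegree_mul_le.trans (by have := add_le_add (hd r1 w1) (hd r2 w2); omega))
  rw [two_mul, coeff_mul_add_eq_of_natDegree_le (hd r1 w1) (hd r2 w2), coeff_mul,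
    Nat.sum_antidiagonal_eq_sum_range_succ_mk] at h
  simp only [eval_mul, eval_pow, eval_add, eval_C, eval_X] at h
  have e : ∀ j : ℕ, ((r1 + j * w1) * (r2 + j * w2)) ^ (p - 1) =
      (w1 * j + r1) ^ (p - 1) * (w2 * j + r2) ^ (p - 1) := fun j => by
    rw [mul_pow]; congr 2 <;> ring
  simp only [e]
  refine h.trans ?_
  rw [coeff_lin_pow _ _ _ _ le_rfl, coeff_lin_pow _ _ _ _ le_rfl, sub_eq_add_neg (r2 * w1),
    add_pow (r2 * w1)]
  refine congrArg₂ (· - ·) (congrArg Neg.neg (sum_congr rfl fun i hi => ?_)) ?_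
  · have hi' : i ≤ p - 1 := Nat.lt_succ_iff.1 (mem_range.1 hi)
    rw [coeff_lin_pow _ _ _ _ hi', coeff_lin_pow _ _ _ _ (Nat.sub_le _ _), Nat.sub_sub_self hi',
      choose_pred _ (Nat.sub_le _ i), neg_pow (r1 * w2), mul_pow, mul_pow]
    ring
  · simp [mul_pow]

end Char

end Pool.Agent.MP_570645_al.H38
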