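import Pool.Agent.MP_570645_al.H38.Tr
import Pool.Agent.MP_570645_al.H38.Sym

/-! The group `B`, the functions `f4`, `f6` and the summation identity. -/

set_option autoImplicit false

namespace Pool.Agent.MP_570645_al.H38

open Finset

variable {Λ Λ' : Type} [CommRing Λ] [CommRing Λ']

/-- Elements of the group. -/
def mkB (w1 w2 η z1 z2 : Λ) (h : T Λ) : T Λ :=
  { h with
    a0 := 1, b0 := 0, c0 := 0, d0 := 1, e0 := 1, p0 := w1, q0 := w2, r0 := -2 * w2, s0 := 2 * w1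
    a1 := η - w1 * w2, b1 := w1 ^ 2, c1 := -w2 ^ 2, d1 := η + w1 * w2, e1 := -2 * η
    p1 := z1, q1 := z2, r1 := 2 * z2 + 2 * η * w2, s1 := -2 * z1 - 2 * η * w1 }

/-- Elements of the group minus one. -/
def mkX (w1 w2 η z1 z2 : Λ) (h : T Λ) : T Λ :=
  { mkB w1 w2 η z1 z2 h with a0 := 0, d0 := 0, e0 := 0 }

/-- Elements of the Lie algebra. -/
def mkL (w1 w2 η z1 z2 : Λ) (h : T Λ) : T Λ :=
  { h with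
    a0 := 0, b0 := 0, c0 := 0, d0 := 0, e0 := 0, p0 := w1, q0 := w2, r0 := -2 * w2, s0 := 2 * w1
    a1 := η, b1 := 0, c1 := 0, d1 := η, e1 := -2 * η
    p1 := z1, q1 := z2, r1 := 2 * z2, s1 := -2 * z1 }

def InB (g : T Λ) : Prop := ∃ w1 w2 η z1 z2 h, g = mkB w1 w2 η z1 z2 h

def InL (y : T Λ) : Prop := ∃ w1 w2 η z1 z2 h, y = mkL w1 w2 η z1 z2 h

theorem inB_one : InB (1 : T Λ) := ⟨0, 0, 0, 0, 0, 0, by ext <;> simp [mkB]⟩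

theorem InB.mul {x g : T Λ} (hx : InB x) (hg : InB g) : InB (x * g) := by
  obtain ⟨r1, r2, ω, y1, y2, k, rfl⟩ := hx
  obtain ⟨w1, w2, η, z1, z2, h, rfl⟩ := hg
  refine ⟨r1 + w1, r2 + w2, ω + η - (r1 * w2 - r2 * w1),
    (mkB r1 r2 ω y1 y2 k * mkB w1 w2 η z1 z2 h).p1, (mkB r1 r2 ω y1 y2 k * mkB w1 w2 η z1 z2 h).q1,
    mkB r1 r2 ω y1 y2 k * mkB w1 w2 η z1 z2 h, ?_⟩
  ext <;> first | rfl | (simp [mkB]; done) | (simp [mkB]; ring)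

theorem InB.mul_p0 {x g : T Λ} (hx : InB x) (hg : InB g) : (x * g).p0 = x.p0 + g.p0 := by
  obtain ⟨r1, r2, ω, y1, y2, k, rfl⟩ := hx
  obtain ⟨w1, w2, η, z1, z2, h, rfl⟩ := hg
  simp [mkB, add_comm]

theorem InB.mul_q0 {x g : T Λ} (hx : InB x) (hg : InB g) : (x * g).q0 = x.q0 + g.q0 := by
  obtain ⟨r1, r2, ω, y1, y2, k, rfl⟩ := hx
  obtain ⟨w1, w2, η, z1, z2, h, rfl⟩ := hg
  simp [mkB, add_comm]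

theorem InB.pow {g : T Λ} (hg : InB g) (j : ℕ) : InB (g ^ j) := by
  induction j with
  | zero => rw [pow_zero]; exact inB_one
  | succ j ih => rw [pow_succ]; exact ih.mul hg

theorem InB.pow_p0 {g : T Λ} (hg : InB g) (j : ℕ) : (g ^ j).p0 = j * g.p0 := by
  induction j with
  | zero => simp
  | succ j ih => rw [pow_succ, (hg.pow j).mul_p0 hg, ih]; push_cast; ring

theorem InB.pow_q0 {g : T Λ} (hg : InB g) (j : ℕ) : (g ^ j).q0 = j * g.q0 := by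
  induction j with
  | zero => simp
  | succ j ih => rw [pow_succ, (hg.pow j).mul_q0 hg, ih]; push_cast; ring

theorem InB.map (f : Λ →+* Λ') {g : T Λ} (hg : InB g) : InB (T.map f g) := by
  obtain ⟨w1, w2, η, z1, z2, h, rfl⟩ := hg
  exact ⟨f w1, f w2, f η, f z1, f z2, T.map f h, by ext <;> simp [mkB, map_ofNat]⟩

theorem InL.map (f : Λ →+* Λ') {g : T Λ} (hg : InL g) : InL (T.map f g) := by
  obtain ⟨w1, w2, η, z1, z2, h, rfl⟩ := hg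
  exact ⟨f w1, f w2, f η, f z1, f z2, T.map f h, by ext <;> simp [mkL, map_ofNat]⟩

theorem InL.add {y z : T Λ} (hy : InL y) (hz : InL z) : InL (y + z) := by
  obtain ⟨r1, r2, ω, y1, y2, k, rfl⟩ := hy
  obtain ⟨w1, w2, η, z1, z2, h, rfl⟩ := hz
  refine ⟨r1 + w1, r2 + w2, ω + η, y1 + z1, y2 + z2, k + h, ?_⟩
  ext <;> first | rfl | (simp [mkL]; done) | (simp [mkL]; ring)

theorem InL.smul (c : Λ) {z : T Λ} (hz : InL z) : InL (c • z) := by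
  obtain ⟨w1, w2, η, z1, z2, h, rfl⟩ := hz
  refine ⟨c * w1, c * w2, c * η, c * z1, c * z2, c • h, ?_⟩
  ext <;> first | rfl | (simp [mkL]; done) | (simp [mkL]; ring)

theorem InL.lie {y z : T Λ} (hy : InL y) (hz : InL z) : InL (y * z + -(z * y)) := by
  obtain ⟨r1, r2, ω, y1, y2, k, rfl⟩ := hy
  obtain ⟨w1, w2, η, z1, z2, h, rfl⟩ := hz
  refine ⟨0, 0, -2 * (r1 * w2 - r2 * w1), 3 * (ω * w1 - η * r1), 3 * (ω * w2 - η * r2),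
    mkL r1 r2 ω y1 y2 k * mkL w1 w2 η z1 z2 h + -(mkL w1 w2 η z1 z2 h * mkL r1 r2 ω y1 y2 k), ?_⟩
  ext <;> first | rfl | (simp [mkL]; done) | (simp [mkL]; ring)

theorem InL.inB {y : T Λ} (hy : InL y) {ε : Λ} (hε : ε * ε = 0) : InB (1 + ε • y) := by
  obtain ⟨w1, w2, η, z1, z2, h, rfl⟩ := hy
  have h2 : ∀ a b : Λ, ε * a * (ε * b) = 0 := fun a b => by linear_combination a * b * hε
  refine ⟨ε * w1, ε * w2, ε * η, ε * z1, ε * z2, ε • h, ?_⟩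
  ext <;> first | (simp [mkL, mkB, sq, h2, mul_assoc (2 : Λ)]; done) |
    (simp [mkL, mkB, sq, h2, mul_assoc (2 : Λ)]; ring)

section Pow

variable (w1 w2 η z1 z2 : Λ) (h : T Λ)

def mkX2 : T Λ :=
  { a0 := 0
    b0 := 0
    c0 := 0
    d0 := 0
    e0 := 0
    p0 := 0
    q0 := 0
    r0 := 0
    s0 := 0
    a1 := -2 * w1 * w2
    b1 := 2 * w1 ^ 2
    c1 := -2 * w2 ^ 2
    d1 := 2 * w1 * w2
    e1 := 0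
    p1 := -w1 * η
    q1 := -w2 * η
    r1 := 2 * w2 * η
    s1 := -2 * w1 * η
    a2 := 2 * w1 * z2 - 2 * w2 * z1 + η ^ 2
    b2 := 0
    c2 := 0
    d2 := 2 * w1 * z2 - 2 * w2 * z1 + η ^ 2
    e2 := 4 * w1 * z2 - 4 * w2 * z1 + 4 * η ^ 2
    p2 := h.a2 * w1 + h.b2 * w2 + h.e2 * w1 - z1 * η + w1 ^ 2 * z2 - w1 * w2 * z1
    q2 := h.c2 * w1 + h.d2 * w2 + h.e2 * w2 - z2 * η + w1 * w2 * z2 - w2 ^ 2 * z1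
    r2 := -2 * h.a2 * w2 + 2 * h.c2 * w1 - 2 * h.e2 * w2 - 2 * z2 * η - 2 * w1 * w2 * z2 +
        2 * w2 ^ 2 * z1 - 2 * w2 * η ^ 2
    s2 := -2 * h.b2 * w2 + 2 * h.d2 * w1 + 2 * h.e2 * w1 + 2 * z1 * η + 2 * w1 ^ 2 * z2 -
        2 * w1 * w2 * z1 + 2 * w1 * η ^ 2
    a3 := 2 * h.a2 * η - 2 * h.p2 * w2 + h.r2 * w1 + 2 * z1 * z2 - 2 * h.a2 * w1 * w2 -
        h.b2 * w2 ^ 2 + h.c2 * w1 ^ 2 + 2 * w2 * z1 * η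
    b3 := 2 * h.b2 * η + 2 * h.p2 * w1 + h.s2 * w1 - 2 * z1 ^ 2 + h.a2 * w1 ^ 2 +
        h.d2 * w1 ^ 2 - 2 * w1 * z1 * η
    c3 := 2 * h.c2 * η - 2 * h.q2 * w2 + h.r2 * w2 + 2 * z2 ^ 2 - h.a2 * w2 ^ 2 -
        h.d2 * w2 ^ 2 + 2 * w2 * z2 * η
    d3 := 2 * h.d2 * η + 2 * h.q2 * w1 + h.s2 * w2 - 2 * z1 * z2 - h.b2 * w2 ^ 2 +
        h.c2 * w1 ^ 2 + 2 * h.d2 * w1 * w2 - 2 * w1 * z2 * η
    e3 := -4 * h.e2 * η - 2 * h.p2 * w2 + 2 * h.q2 * w1 + h.r2 * w1 + h.s2 * w2 -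
        2 * w1 * z2 * η + 2 * w2 * z1 * η
    p3 := h.a2 * z1 + h.a3 * w1 + h.b2 * z2 + h.b3 * w2 + h.e2 * z1 + h.e3 * w1 - h.p2 * η -
        h.p2 * w1 * w2 + h.q2 * w1 ^ 2
    q3 := h.c2 * z1 + h.c3 * w1 + h.d2 * z2 + h.d3 * w2 + h.e2 * z2 + h.e3 * w2 - h.q2 * η -
        h.p2 * w2 ^ 2 + h.q2 * w1 * w2
    r3 := 2 * h.a2 * z2 - 2 * h.a3 * w2 - 2 * h.c2 * z1 + 2 * h.c3 * w1 + 2 * h.e2 * z2 -
        2 * h.e3 * w2 - h.r2 * η + 2 * h.a2 * w2 * η - 2 * h.c2 * w1 * η + 2 * h.e2 * w2 * η -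
        h.r2 * w1 * w2 - h.s2 * w2 ^ 2
    s3 := 2 * h.b2 * z2 - 2 * h.b3 * w2 - 2 * h.d2 * z1 + 2 * h.d3 * w1 - 2 * h.e2 * z1 +
        2 * h.e3 * w1 - h.s2 * η + 2 * h.b2 * w2 * η - 2 * h.d2 * w1 * η - 2 * h.e2 * w1 * η +
        h.r2 * w1 ^ 2 + h.s2 * w1 * w2 }

def mkX3 : T Λ :=
  { a0 := 0
    b0 := 0
    c0 := 0
    d0 := 0
    e0 := 0
    p0 := 0
    q0 := 0
    r0 := 0
    s0 := 0
    a1 := 0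
    b1 := 0
    c1 := 0
    d1 := 0
    e1 := 0
    p1 := 0
    q1 := 0
    r1 := 0
    s1 := 0
    a2 := 0
    b2 := 0
    c2 := 0
    d2 := 0
    e2 := 0
    p2 := 4 * w1 ^ 2 * z2 - 4 * w1 * w2 * z1 + 3 * w1 * η ^ 2
    q2 := 4 * w1 * w2 * z2 - 4 * w2 ^ 2 * z1 + 3 * w2 * η ^ 2
    r2 := -8 * w1 * w2 * z2 + 8 * w2 ^ 2 * z1 - 6 * w2 * η ^ 2
    s2 := 8 * w1 ^ 2 * z2 - 8 * w1 * w2 * z1 + 6 * w1 * η ^ 2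
    a3 := -4 * h.a2 * w1 * w2 - 2 * h.b2 * w2 ^ 2 + 2 * h.c2 * w1 ^ 2 - 2 * h.e2 * w1 * w2 +
        η ^ 3 - 4 * w1 ^ 2 * w2 * z2 + 4 * w1 * w2 ^ 2 * z1 - 3 * w1 * w2 * η ^ 2
    b3 := 2 * h.a2 * w1 ^ 2 + 2 * h.d2 * w1 ^ 2 + 2 * h.e2 * w1 ^ 2 + 4 * w1 ^ 3 * z2 -
        4 * w1 ^ 2 * w2 * z1 + 3 * w1 ^ 2 * η ^ 2
    c3 := -2 * h.a2 * w2 ^ 2 - 2 * h.d2 * w2 ^ 2 - 2 * h.e2 * w2 ^ 2 - 4 * w1 * w2 ^ 2 * z2 +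
        4 * w2 ^ 3 * z1 - 3 * w2 ^ 2 * η ^ 2
    d3 := -2 * h.b2 * w2 ^ 2 + 2 * h.c2 * w1 ^ 2 + 4 * h.d2 * w1 * w2 + 2 * h.e2 * w1 * w2 +
        η ^ 3 + 4 * w1 ^ 2 * w2 * z2 - 4 * w1 * w2 ^ 2 * z1 + 3 * w1 * w2 * η ^ 2
    e3 := -2 * h.a2 * w1 * w2 - 2 * h.b2 * w2 ^ 2 + 2 * h.c2 * w1 ^ 2 + 2 * h.d2 * w1 * w2 -
        12 * w1 * z2 * η + 12 * w2 * z1 * η - 8 * η ^ 3
    p3 := -3 * h.e2 * w1 * η - 2 * h.p2 * w1 * w2 + 2 * h.q2 * w1 ^ 2 + h.r2 * w1 ^ 2 +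
        h.s2 * w1 * w2 + 4 * w1 * z1 * z2 - 4 * w2 * z1 ^ 2 + 3 * z1 * η ^ 2 -
        h.a2 * w1 ^ 2 * w2 - h.b2 * w1 * w2 ^ 2 + h.c2 * w1 ^ 3 + h.d2 * w1 ^ 2 * w2 -
        2 * w1 ^ 2 * z2 * η + 2 * w1 * w2 * z1 * η
    q3 := -3 * h.e2 * w2 * η - 2 * h.p2 * w2 ^ 2 + 2 * h.q2 * w1 * w2 + h.r2 * w1 * w2 +
        h.s2 * w2 ^ 2 + 4 * w1 * z2 ^ 2 - 4 * w2 * z1 * z2 + 3 * z2 * η ^ 2 -
        h.a2 * w1 * w2 ^ 2 - h.b2 * w2 ^ 3 + h.c2 * w1 ^ 2 * w2 + h.d2 * w1 * w2 ^ 2 -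
        2 * w1 * w2 * z2 * η + 2 * w2 ^ 2 * z1 * η
    r3 := 6 * h.e2 * w2 * η + 4 * h.p2 * w2 ^ 2 - 4 * h.q2 * w1 * w2 - 2 * h.r2 * w1 * w2 -
        2 * h.s2 * w2 ^ 2 + 8 * w1 * z2 ^ 2 - 8 * w2 * z1 * z2 + 6 * z2 * η ^ 2 +
        2 * h.a2 * w1 * w2 ^ 2 + 2 * h.b2 * w2 ^ 3 - 2 * h.c2 * w1 ^ 2 * w2 -
        2 * h.d2 * w1 * w2 ^ 2 + 12 * w1 * w2 * z2 * η - 12 * w2 ^ 2 * z1 * η + 6 * w2 * η ^ 3
    s3 := -6 * h.e2 * w1 * η - 4 * h.p2 * w1 * w2 + 4 * h.q2 * w1 ^ 2 + 2 * h.r2 * w1 ^ 2 +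
        2 * h.s2 * w1 * w2 - 8 * w1 * z1 * z2 + 8 * w2 * z1 ^ 2 - 6 * z1 * η ^ 2 -
        2 * h.a2 * w1 ^ 2 * w2 - 2 * h.b2 * w1 * w2 ^ 2 + 2 * h.c2 * w1 ^ 3 +
        2 * h.d2 * w1 ^ 2 * w2 - 12 * w1 ^ 2 * z2 * η + 12 * w1 * w2 * z1 * η - 6 * w1 * η ^ 3 }

def mkX4 : T Λ :=
  { a0 := 0
    b0 := 0
    c0 := 0
    d0 := 0
    e0 := 0
    p0 := 0
    q0 := 0
    r0 := 0
    s0 := 0
    a1 := 0
    b1 := 0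
    c1 := 0
    d1 := 0
    e1 := 0
    p1 := 0
    q1 := 0
    r1 := 0
    s1 := 0
    a2 := 0
    b2 := 0
    c2 := 0
    d2 := 0
    e2 := 0
    p2 := 0
    q2 := 0
    r2 := 0
    s2 := 0
    a3 := -8 * w1 ^ 2 * w2 * z2 + 8 * w1 * w2 ^ 2 * z1 - 6 * w1 * w2 * η ^ 2
    b3 := 8 * w1 ^ 3 * z2 - 8 * w1 ^ 2 * w2 * z1 + 6 * w1 ^ 2 * η ^ 2
    c3 := -8 * w1 * w2 ^ 2 * z2 + 8 * w2 ^ 3 * z1 - 6 * w2 ^ 2 * η ^ 2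
    d3 := 8 * w1 ^ 2 * w2 * z2 - 8 * w1 * w2 ^ 2 * z1 + 6 * w1 * w2 * η ^ 2
    e3 := 0
    p3 := -2 * h.a2 * w1 ^ 2 * w2 - 2 * h.b2 * w1 * w2 ^ 2 + 2 * h.c2 * w1 ^ 3 +
        2 * h.d2 * w1 ^ 2 * w2 - 8 * w1 ^ 2 * z2 * η + 8 * w1 * w2 * z1 * η - 5 * w1 * η ^ 3
    q3 := -2 * h.a2 * w1 * w2 ^ 2 - 2 * h.b2 * w2 ^ 3 + 2 * h.c2 * w1 ^ 2 * w2 +
        2 * h.d2 * w1 * w2 ^ 2 - 8 * w1 * w2 * z2 * η + 8 * w2 ^ 2 * z1 * η - 5 * w2 * η ^ 3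
    r3 := 4 * h.a2 * w1 * w2 ^ 2 + 4 * h.b2 * w2 ^ 3 - 4 * h.c2 * w1 ^ 2 * w2 -
        4 * h.d2 * w1 * w2 ^ 2 + 16 * w1 * w2 * z2 * η - 16 * w2 ^ 2 * z1 * η + 10 * w2 * η ^ 3
    s3 := -4 * h.a2 * w1 ^ 2 * w2 - 4 * h.b2 * w1 * w2 ^ 2 + 4 * h.c2 * w1 ^ 3 +
        4 * h.d2 * w1 ^ 2 * w2 - 16 * w1 ^ 2 * z2 * η + 16 * w1 * w2 * z1 * η - 10 * w1 * η ^ 3 }

theorem mkB_eq : mkB w1 w2 η z1 z2 h = 1 + mkX w1 w2 η z1 z2 h := by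
  ext <;> simp [mkB, mkX]

theorem X2_eq : mkX w1 w2 η z1 z2 h * mkX w1 w2 η z1 z2 h = mkX2 w1 w2 η z1 z2 h := by
  ext <;> first | (simp [mkB, mkX, mkX2]; done) | (simp [mkB, mkX, mkX2]; ring)

theorem X3_eq : mkX2 w1 w2 η z1 z2 h * mkX w1 w2 η z1 z2 h = mkX3 w1 w2 η z1 z2 h := by
  ext <;> first | (simp [mkB, mkX, mkX2, mkX3]; done) | (simp [mkB, mkX, mkX2, mkX3]; ring)

theorem X4_eq : mkX3 w1 w2 η z1 z2 h * mkX w1 w2 η z1 z2 h = mkX4 w1 w2 η z1 z2 h := by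
  ext <;> first | (simp [mkB, mkX, mkX3, mkX4]; done) | (simp [mkB, mkX, mkX3, mkX4]; ring)

theorem X5_eq : mkX4 w1 w2 η z1 z2 h * mkX w1 w2 η z1 z2 h = 0 := by
  ext <;> first | (simp [mkB, mkX, mkX4]; done) | (simp [mkB, mkX, mkX4]; ring)

end Pow

theorem newton {A : Type} [Ring A] [Algebra Λ A] (x X X2 X3 X4 : A) (h2 : X * X = X2)
    (h3 : X2 * X = X3) (h4 : X3 * X = X4) (h5 : X4 * X = 0) (j : ℕ) :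
    (24 : Λ) • (x * (1 + X) ^ j) = (24 : Λ) • x + (24 * ff1 j : Λ) • (x * X) +
      (12 * ff2 j : Λ) • (x * X2) + (4 * ff3 j : Λ) • (x * X3) + (ff4 j : Λ) • (x * X4) := by
  induction j with
  | zero => simp [ff1, ff2, ff3, ff4]
  | succ j ih =>
    rw [pow_succ, ← mul_assoc, ← smul_mul_assoc, ih]
    simp only [add_mul, mul_add, mul_one, smul_mul_assoc, mul_assoc x, h2, h3, h4, h5, mul_zero,
      ff1, ff2, ff3, ff4]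
    push_cast
    module

end Pool.Agent.MP_570645_al.H38
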