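import Pool.Agent.MP_570645_al.H38.Eps

/-! An Engel Lie ring in which the identity of degree `2 p - 1` fails. -/

set_option autoImplicit false

namespace Pool.Agent.MP_570645_al.H38

open Finset H18

attribute [local instance 100] LieRing.ofAssociativeRing

variable {p : ℕ} [Fact p.Prime]

section Gen

variable {R : Type} [CommRing R] [Algebra (ZMod p) R]

theorem th_killed (h5 : 5 ≤ p) {a b : ℕ} (hab : p - 1 = 4 * a + 6 * b) {x : T R} (hx : InB x)
    {D : Module.End (ZMod p) R} (hD : D ∈ LL (p := p) x) : (D ^ (p - 1)) (th p a b x) = 0 := by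
  obtain ⟨y, h⟩ := hD
  obtain ⟨Λ, _, ι, ε, co, hε, hco⟩ := exists_eps R (p - 1)
  letI : Algebra (ZMod p) Λ := (ι.comp (algebraMap (ZMod p) R)).toAlgebra
  set y' := T.map (algebraMap (ZMod p) Λ) y with hy'
  obtain ⟨hg, g1, g2⟩ := inB_prod (fun i => 1 + ε i • y') (fun i => (h.lie.map _).inB (hε i))
    (List.finRange (p - 1))
  have hs := star h5 hab (hx.map ι) hg
  have hz : (∑ i, ε i) ^ (p - 1 + 1) = 0 := by
    have := (eps_sum_pow ε hε univ).2
    rwa [card_univ, Fintype.card_fin] at this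
  have hr : ((List.map (fun i => 1 + ε i • y') (List.finRange (p - 1))).prod.p0 *
      (List.map (fun i => 1 + ε i • y') (List.finRange (p - 1))).prod.q0) ^ (p - 1) = 0 := by
    rw [g1, g2, ← Fin.sum_univ_def, ← Fin.sum_univ_def]
    simp only [T.add_p0, T.one_p0, T.smul_p0, T.add_q0, T.one_q0, T.smul_q0, zero_add,
      ← sum_mul]
    rw [mul_mul_mul_comm, mul_pow, ← sq, ← pow_mul,
      pow_eq_zero_of_le (by omega : p - 1 + 1 ≤ 2 * (p - 1)) hz, zero_mul]
  rw [hr, neg_zero] at hs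
  have hj : ∀ j : ℕ, co (th p a b (T.map ι x *
      (List.map (fun i => 1 + ε i • y') (List.finRange (p - 1))).prod ^ j)) =
      (j : R) ^ (p - 1) * (D ^ (p - 1)) (th p a b x) := fun j => by
    obtain ⟨π, h1, h2⟩ := expand (D := fun _ => D) (y := fun _ => y) (fun _ => h)
      (ε := fun i => j * ε i) (fun i => by rw [mul_mul_mul_comm, hε, mul_zero])
      (List.finRange (p - 1)) ι
    rw [prod_pow_eps y' ε hε, ← h2, ← map_th, h1, map_list_sum, List.map_map]
    have e := sum_sublists_top (List.finRange (p - 1))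
      fun s => (j : R) ^ s.length * (D ^ s.length) (th p a b x)
    rw [List.length_finRange] at e
    rw [← e]
    congr 1
    refine List.map_congr_left fun s hs => ?_
    have e2 : (s.map fun i => j * ε i).prod * ι ((s.map fun _ => D).prod (th p a b x)) =
        (s.map ε).prod * ι ((j : R) ^ s.length * (D ^ s.length) (th p a b x)) := by
      rw [List.prod_map_mul, List.map_const', List.map_const', List.prod_replicate,
        List.prod_replicate, map_mul, map_pow, map_natCast]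
      ring
    rw [Function.comp_apply, e2, hco]
    refine if_congr ⟨fun hp => by rw [hp.length_eq, List.length_finRange], fun hl => ?_⟩ rfl rfl
    rw [(List.mem_sublists'.1 hs).eq_of_length (by rw [hl, List.length_finRange])]
  have h3 := congrArg co hs
  rw [map_sum, map_zero] at h3
  simp only [hj] at h3
  rw [← sum_mul, psum _ (by omega), if_pos (Or.inl rfl)] at h3
  simpa using h3

theorem wall_th (h5 : 5 ≤ p) {a b : ℕ} (hab : p - 1 = 4 * a + 6 * b) {x : T R} (hx : InB x)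
    {D₁ D₂ : Module.End (ZMod p) R} (h1 : Tan x D₁ (mkL 1 0 0 0 0 0))
    (h2 : Tan x D₂ (mkL 0 1 0 0 0 0)) :
    ((wallW p (2 * p - 2)).map fun s =>
      (s.map fun i : Fin (2 * p - 2) => if (i : ℕ) < p - 1 then D₁ else D₂).prod
        (th p a b x)).sum = -1 := by
  obtain ⟨Λ, _, ι, ε, co, hε, hco⟩ := exists_eps R (2 * p - 2)
  letI : Algebra (ZMod p) Λ := (ι.comp (algebraMap (ZMod p) R)).toAlgebra
  let y : Fin (2 * p - 2) → T (ZMod p) := fun i =>
    if (i : ℕ) < p - 1 then mkL 1 0 0 0 0 0 else mkL 0 1 0 0 0 0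
  have h : ∀ i : Fin (2 * p - 2), Tan x (if (i : ℕ) < p - 1 then D₁ else D₂) (y i) := fun i => by
    simp only [y]
    split_ifs
    · exact h1
    · exact h2
  obtain ⟨hg, g1, g2⟩ := inB_prod (fun i => 1 + ε i • T.map (algebraMap (ZMod p) Λ) (y i))
    (fun i => ((h i).lie.map _).inB (hε i)) (List.finRange (2 * p - 2))
  have hs := star h5 hab (hx.map ι) hg
  have c1 : (univ.filter fun i : Fin (2 * p - 2) => (i : ℕ) < p - 1).card = p - 1 := by
    rw [Fin.card_filter_val_lt]; omega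
  have c2 : (univ.filter fun i : Fin (2 * p - 2) => ¬ (i : ℕ) < p - 1).card = p - 1 := by
    have := card_filter_add_card_filter_not (s := univ) fun i : Fin (2 * p - 2) => (i : ℕ) < p - 1
    rw [c1, card_univ, Fintype.card_fin] at this
    omega
  have hw : (((p - 1).factorial : ℕ) : Λ) = -1 := by
    have := congrArg (algebraMap (ZMod p) Λ) (ZMod.wilsons_lemma p)
    rwa [map_natCast, map_neg, map_one] at this
  have e1 := (eps_sum_pow ε hε (univ.filter fun i : Fin (2 * p - 2) => (i : ℕ) < p - 1)).1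
  have e2 := (eps_sum_pow ε hε (univ.filter fun i : Fin (2 * p - 2) => ¬ (i : ℕ) < p - 1)).1
  rw [c1, hw, sum_filter] at e1
  rw [c2, hw, sum_filter] at e2
  have f1 : ∀ i, (1 + ε i • T.map (algebraMap (ZMod p) Λ) (y i)).p0 =
      if (i : ℕ) < p - 1 then ε i else 0 := fun i => by
    simp only [y]; split_ifs <;> simp [mkL]
  have f2 : ∀ i, (1 + ε i • T.map (algebraMap (ZMod p) Λ) (y i)).q0 =
      if ¬ (i : ℕ) < p - 1 then ε i else 0 := fun i => by
    simp only [y]; split_ifs <;> simp [mkL]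
  rw [g1, g2, ← Fin.sum_univ_def, ← Fin.sum_univ_def] at hs
  simp only [f1, f2] at hs
  rw [mul_pow, e1, e2, mul_mul_mul_comm, prod_filter_mul_prod_filter_not, neg_mul_neg, one_mul,
    one_mul, Fin.prod_univ_def] at hs
  have h3 := congrArg co hs
  have h4 := hco (List.finRange (2 * p - 2)) 1
  rw [map_one, mul_one, if_pos (List.Perm.refl _)] at h4
  rw [map_neg, h4, map_sum] at h3
  rw [← h3, wallW, sum_filter_ite, sum_allW]
  refine sum_congr rfl fun j _ => ?_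
  obtain ⟨π, k1, k2⟩ := expand h hε (List.replicate j (List.finRange (2 * p - 2))).flatten ι
  rw [List.map_flatten, List.prod_flatten, List.map_replicate, List.map_replicate,
    List.prod_replicate] at k2
  rw [← k2, ← map_th, k1, map_list_sum, List.map_map]
  congr 2
  funext s
  rw [Function.comp_apply, hco]

end Gen

open MvPolynomial in
/-- The generic point. -/
noncomputable def gen (k : Type) [CommRing k] : T (MvPolynomial ℕ k) :=
  mkB (X 0) (X 1) (X 2) (X 3) (X 4)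
    ⟨0, 0, 0, 0, 0, 0, 0, 0, 0, 0, 0, 0, 0, 0, 0, 0, 0, 0, X 5, X 6, X 7, X 8, X 9, X 10, X 11,
      X 12, X 13, X 14, X 15, X 16, X 17, X 18, X 19, X 20, X 21, X 22⟩

/-- The values of a tangent derivation on the coordinates. -/
def dv {R : Type} (u : T R) (η : R) : ℕ → R
  | 0 => u.p0 | 1 => u.q0 | 2 => η | 3 => u.p1 | 4 => u.q1
  | 5 => u.a2 | 6 => u.b2 | 7 => u.c2 | 8 => u.d2 | 9 => u.e2
  | 10 => u.p2 | 11 => u.q2 | 12 => u.r2 | 13 => u.s2
  | 14 => u.a3 | 15 => u.b3 | 16 => u.c3 | 17 => u.d3 | 18 => u.e3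
  | 19 => u.p3 | 20 => u.q3 | 21 => u.r3 | _ => u.s3

theorem tan_ext {R : Type} [CommRing R] (d : R →+ R) (hm : ∀ a b, d (a * b) = a * d b + b * d a)
    (r1 r2 ω y1 y2 c1 c2 : R) (k u : T R) (hu : u = mkB r1 r2 ω y1 y2 k * mkL c1 c2 0 0 0 0)
    (e0 : d r1 = u.p0) (e1 : d r2 = u.q0) (e2 : d ω = r2 * c1 - r1 * c2) (e3 : d y1 = u.p1)
    (e4 : d y2 = u.q1)
    (ha2 : d k.a2 = u.a2) (hb2 : d k.b2 = u.b2) (hc2 : d k.c2 = u.c2) (hd2 : d k.d2 = u.d2)
    (he2 : d k.e2 = u.e2) (hp2 : d k.p2 = u.p2) (hq2 : d k.q2 = u.q2) (hr2 : d k.r2 = u.r2)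
    (hs2 : d k.s2 = u.s2) (ha3 : d k.a3 = u.a3) (hb3 : d k.b3 = u.b3) (hc3 : d k.c3 = u.c3)
    (hd3 : d k.d3 = u.d3) (he3 : d k.e3 = u.e3) (hp3 : d k.p3 = u.p3) (hq3 : d k.q3 = u.q3)
    (hr3 : d k.r3 = u.r3) (hs3 : d k.s3 = u.s3) :
    T.map d (mkB r1 r2 ω y1 y2 k) = u := by
  have h1 : d 1 = 0 := by simpa using hm 1 1
  have h2 : d 2 = 0 := by rw [← one_add_one_eq_two, map_add, h1, add_zero]
  have f0 : d r1 = c1 := by rw [e0, hu]; simp [mkB, mkL]
  have f1 : d r2 = c2 := by rw [e1, hu]; simp [mkB, mkL]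
  refine T.ext ?_ ?_ ?_ ?_ ?_ e0 e1 ?_ ?_ ?_ ?_ ?_ ?_ ?_ e3 e4 ?_ ?_
    ha2 hb2 hc2 hd2 he2 hp2 hq2 hr2 hs2 ha3 hb3 hc3 hd3 he3 hp3 hq3 hr3 hs3
  all_goals
    simp only [mkB, T.map, sq, map_add, map_sub, map_neg, map_zero, neg_mul, hm, h1, h2, f0, f1, e2,
      e3, e4]
    simp [mkB, mkL, hu] <;> ring

open MvPolynomial in
theorem exists_tan (w1 w2 : ZMod p) :
    ∃ D, Tan (gen (ZMod p)) D (mkL w1 w2 0 0 0 0) := by
  obtain ⟨u, hu⟩ : ∃ u, u = gen (ZMod p) * mkL (C w1) (C w2) 0 0 0 0 := ⟨_, rfl⟩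
  let d := mkDerivation (ZMod p) (dv u (X 1 * C w1 - X 0 * C w2))
  have hd : ∀ i, d (X i) = dv u (X 1 * C w1 - X 0 * C w2) i := mkDerivation_X _ _
  have hm : ∀ a b, d (a * b) = a * d b + b * d a := fun a b => d.leibniz a b
  have e : T.map (algebraMap (ZMod p) (MvPolynomial ℕ (ZMod p))) (mkL w1 w2 0 0 0 0) =
      mkL (C w1) (C w2) 0 0 0 0 := by
    ext1 <;> simp [mkL, map_ofNat]
  refine ⟨d.toLinearMap, hm, ⟨_, _, _, _, _, _, rfl⟩, ?_⟩
  rw [e, ← hu]
  exact tan_ext d.toLinearMap.toAddMonoidHom hm _ _ _ _ _ _ _ _ u hu (hd 0) (hd 1) (hd 2) (hd 3)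
    (hd 4) (hd 5) (hd 6) (hd 7) (hd 8) (hd 9) (hd 10) (hd 11) (hd 12) (hd 13) (hd 14) (hd 15)
    (hd 16) (hd 17) (hd 18) (hd 19) (hd 20) (hd 21) (hd 22)

theorem exists_bad (h5 : 5 ≤ p) : ∃ (M : Type) (_ : LieRing M), (∀ m : M, p • m = 0) ∧
    (∀ x y : M, (fun v => ⁅x, v⁆)^[p - 1] y = 0) ∧
    ∃ (y : Fin (2 * p - 2) → M) (v : M),
      ((wallW p (2 * p - 2)).map fun s => act (s.map y) v).sum ≠ 0 := by
  have hp : p.Prime := Fact.out
  obtain ⟨a, b, hab⟩ : ∃ a b, p - 1 = 4 * a + 6 * b := by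
    have := hp.eq_two_or_odd
    by_cases h : p % 4 = 1
    · exact ⟨(p - 1) / 4, 0, by omega⟩
    · exact ⟨(p - 7) / 4, 1, by omega⟩
  obtain ⟨D₁, h1⟩ := exists_tan (p := p) 1 0
  obtain ⟨D₂, h2⟩ := exists_tan (p := p) 0 1
  have hx : InB (gen (ZMod p)) := ⟨_, _, _, _, _, _, rfl⟩
  obtain ⟨M, _, k1, k2, v, y, ev, k3⟩ := exists_model (LL (p := p) (gen (ZMod p)))
    (th p a b (gen (ZMod p))) (fun D hD => th_killed h5 hab hx hD)
    (fun i : Fin (2 * p - 2) => if (i : ℕ) < p - 1 then D₁ else D₂) fun i => by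
      split_ifs
      · exact ⟨_, h1⟩
      · exact ⟨_, h2⟩
  refine ⟨M, inferInstance, k1, k2, y, v, fun h0 => ?_⟩
  have h3 := congrArg ev h0
  rw [map_list_sum, List.map_map, map_zero] at h3
  have h4 := wall_th h5 hab hx h1 h2
  simp only [← k3] at h4
  exact one_ne_zero (neg_eq_zero.1 (h4.symm.trans h3))

end Pool.Agent.MP_570645_al.H38
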