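import Pool.Agent.MP_570645_al.H38.Grp

/-! The functions `f4`, `f6` and the summation identity. -/

set_option autoImplicit false

namespace Pool.Agent.MP_570645_al.H38

open Finset

variable {Λ Λ' : Type} [CommRing Λ] [CommRing Λ']

def F4 (a1 a2 a3 t3 rr c03 c12 : Λ) : Λ :=
  a1 * a1 * (a1 * a1) - 384 * (a1 * a1 * a2) + 258048 * (a2 * a2) - 373248 * (a1 * a3) +
    13824 * (a1 * t3) - 27648 * rr - 774144 * c03 + 884736 * c12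

def F6 (a1 a2 a3 t3 rr c02 c03 c12 : Λ) : Λ :=
  a1 * a1 * (a1 * a1) * (a1 * a1) - 576 * (a1 * a1 * (a1 * a1) * a2) +
    110592 * (a1 * a1 * a2 * a2) - 70778880 * (a2 * a2 * a2) + 41472 * (a1 * a1 * a1 * a3) -
    13824 * (a1 * a1 * a1 * t3) + 95551488 * (a1 * a2 * a3) - 7962624 * (a1 * a2 * t3) +
    1327104 * (a1 * a2 * c02) + 382205952 * (a3 * a3) - 254803968 * (a3 * t3) +
    806879232 * (t3 * t3) - 127401984 * (t3 * c02) + 5308416 * (c02 * c02) +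
    26542080 * (a2 * rr) + 212336640 * (a2 * c03) - 318504960 * (a2 * c12)

/-- The determinant of two scaled vectors. -/
def dt (a b c d : Λ) : Λ := 24 * a * (24 * d) - 24 * b * (24 * c)

def f4 (x : T Λ) : Λ :=
  F4 (24 * x.e1) (24 * x.e2) (24 * x.e3) (24 * (x.a3 + x.d3 + x.e3)) (dt x.r0 x.s0 x.r3 x.s3)
    (dt x.p0 x.q0 x.p3 x.q3) (dt x.p1 x.q1 x.p2 x.q2)

def f6 (x : T Λ) : Λ :=
  F6 (24 * x.e1) (24 * x.e2) (24 * x.e3) (24 * (x.a3 + x.d3 + x.e3)) (dt x.r0 x.s0 x.r3 x.s3)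
    (dt x.p0 x.q0 x.p2 x.q2) (dt x.p0 x.q0 x.p3 x.q3) (dt x.p1 x.q1 x.p2 x.q2)

theorem map_f4 (f : Λ →+* Λ') (x : T Λ) : f (f4 x) = f4 (T.map f x) := by
  simp [f4, F4, dt, map_ofNat]

theorem map_f6 (f : Λ →+* Λ') (x : T Λ) : f (f6 x) = f6 (T.map f x) := by
  simp [f6, F6, dt, map_ofNat]

theorem sy_F4 {a1 a2 a3 t3 rr c03 c12 : ℕ → Λ} {A1 A2 A3 T3 RR C03 C12 : Λ} (h1 : Sy 1 A1 a1)
    (h2 : Sy 2 A2 a2) (h3 : Sy 3 A3 a3) (ht : Sy 3 T3 t3) (hr : Sy 4 RR rr) (h03 : Sy 4 C03 c03)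
    (h12 : Sy 4 C12 c12) : Sy 4 (F4 A1 A2 A3 T3 RR C03 C12) fun j =>
      F4 (a1 j) (a2 j) (a3 j) (t3 j) (rr j) (c03 j) (c12 j) :=
  ((((((((h1.mul h1).mul (h1.mul h1)).sub (((h1.mul h1).mul h2).cmul _)).add
    ((h2.mul h2).cmul _)).sub ((h1.mul h3).cmul _)).add ((h1.mul ht).cmul _)).sub
    (hr.cmul _)).sub (h03.cmul _)).add (h12.cmul _)

theorem sy_F6 {a1 a2 a3 t3 rr c02 c03 c12 : ℕ → Λ} {A1 A2 A3 T3 RR C02 C03 C12 : Λ}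
    (h1 : Sy 1 A1 a1) (h2 : Sy 2 A2 a2) (h3 : Sy 3 A3 a3) (ht : Sy 3 T3 t3) (hr : Sy 4 RR rr)
    (h02 : Sy 3 C02 c02) (h03 : Sy 4 C03 c03) (h12 : Sy 4 C12 c12) :
    Sy 6 (F6 A1 A2 A3 T3 RR C02 C03 C12) fun j =>
      F6 (a1 j) (a2 j) (a3 j) (t3 j) (rr j) (c02 j) (c03 j) (c12 j) := by
  have h11 : Sy 2 _ _ := h1.mul h1
  have h4 : Sy 4 _ _ := h11.mul h11
  have h111 : Sy 3 _ _ := h11.mul h1
  have h12' : Sy 3 _ _ := h1.mul h2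
  have e1 : Sy 6 _ _ := h4.mul h11
  have e2 : Sy 6 _ _ := h4.mul h2
  have e3 : Sy 6 _ _ := (h11.mul h2).mul h2
  have e4 : Sy 6 _ _ := (h2.mul h2).mul h2
  have e5 : Sy 6 _ _ := h111.mul h3
  have e6 : Sy 6 _ _ := h111.mul ht
  have e7 : Sy 6 _ _ := h12'.mul h3
  have e8 : Sy 6 _ _ := h12'.mul ht
  have e9 : Sy 6 _ _ := h12'.mul h02
  have e10 : Sy 6 _ _ := h3.mul h3
  have e11 : Sy 6 _ _ := h3.mul ht
  have e12 : Sy 6 _ _ := ht.mul ht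
  have e13 : Sy 6 _ _ := ht.mul h02
  have e14 : Sy 6 _ _ := h02.mul h02
  have e15 : Sy 6 _ _ := h2.mul hr
  have e16 : Sy 6 _ _ := h2.mul h03
  have e17 : Sy 6 _ _ := h2.mul h12
  exact (((((((((((((((e1.sub (e2.cmul _)).add (e3.cmul _)).sub (e4.cmul _)).add (e5.cmul _)).sub
    (e6.cmul _)).add (e7.cmul _)).sub (e8.cmul _)).add (e9.cmul _)).add (e10.cmul _)).sub
    (e11.cmul _)).add (e12.cmul _)).sub (e13.cmul _)).add (e14.cmul _)).add (e15.cmul _)).add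
    (e16.cmul _)).sub (e17.cmul _)

/-- Newton expansion of a linear coordinate. -/
theorem newton_coord (φ : T Λ → Λ) (ha : ∀ x y, φ (x + y) = φ x + φ y)
    (hs : ∀ (c : Λ) x, φ (c • x) = c * φ x) (x : T Λ) (w1 w2 η z1 z2 : Λ) (h : T Λ) (j : ℕ) :
    24 * φ (x * mkB w1 w2 η z1 z2 h ^ j) = nw (φ x) (φ (x * mkX w1 w2 η z1 z2 h))
      (φ (x * mkX2 w1 w2 η z1 z2 h)) (φ (x * mkX3 w1 w2 η z1 z2 h))
      (φ (x * mkX4 w1 w2 η z1 z2 h)) j := by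
  have := congrArg φ (newton (Λ := Λ) x _ _ _ _ (X2_eq w1 w2 η z1 z2 h) (X3_eq w1 w2 η z1 z2 h)
    (X4_eq w1 w2 η z1 z2 h) (X5_eq w1 w2 η z1 z2 h) j)
  simp only [ha, hs] at this
  rw [mkB_eq, this, nw]
  ring

theorem sy_f {x g : T Λ} (hx : InB x) (hg : InB g) :
    Sy 4 ((48 * (x.q0 * g.p0 - x.p0 * g.q0)) ^ 4) (fun j => f4 (x * g ^ j)) ∧
    Sy 6 ((48 * (x.q0 * g.p0 - x.p0 * g.q0)) ^ 6) (fun j => f6 (x * g ^ j)) := by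
  obtain ⟨r1, r2, ω, y1, y2, k, rfl⟩ := hx
  obtain ⟨w1, w2, η, z1, z2, h, rfl⟩ := hg
  set x := mkB r1 r2 ω y1 y2 k with hx
  set g := mkB w1 w2 η z1 z2 h with hg
  set Y1 := x * mkX w1 w2 η z1 z2 h with hY1
  set Y2 := x * mkX2 w1 w2 η z1 z2 h with hY2
  set Y3 := x * mkX3 w1 w2 η z1 z2 h with hY3
  set Y4 := x * mkX4 w1 w2 η z1 z2 h with hY4
  have N : ∀ (φ : T Λ → Λ), (∀ x y, φ (x + y) = φ x + φ y) →
      (∀ (c : Λ) x, φ (c • x) = c * φ x) → ∀ j : ℕ,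
      24 * φ (x * g ^ j) = nw (φ x) (φ Y1) (φ Y2) (φ Y3) (φ Y4) j :=
    fun φ ha hs j => newton_coord φ ha hs x w1 w2 η z1 z2 h j
  obtain ⟨b, hb⟩ : ∃ b, b = r1 * w2 - r2 * w1 := ⟨_, rfl⟩
  obtain ⟨ζ, hζ⟩ : ∃ ζ, ζ = w1 * z2 - w2 * z1 := ⟨_, rfl⟩
  obtain ⟨μ, hμ⟩ : ∃ μ, μ = -h.a2 * w1 * w2 - h.b2 * w2 ^ 2 + h.c2 * w1 ^ 2 + h.d2 * w1 * w2 :=
    ⟨_, rfl⟩
  have a1 : Sy 1 (24 * (2 * b - 2 * η)) fun j => 24 * (x * g ^ j).e1 := by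
    refine (sy_nw1 x.e1 Y1.e1).congr ?_ fun j => ?_
    · simp [hY1, hx, mkB, mkX, hb]; ring
    · rw [N T.e1 T.add_e1 (fun c x => T.smul_e1 x c)]
      congr 1 <;> simp [hY2, hY3, hY4, hx, mkB, mkX2, mkX3, mkX4]
  have a2 : Sy 2 (12 * (4 * ζ + 4 * η ^ 2 - 2 * b * η)) fun j => 24 * (x * g ^ j).e2 := by
    refine (sy_nw2 x.e2 Y1.e2 Y2.e2).congr ?_ fun j => ?_
    · simp [hY2, hx, mkB, mkX2, hb, hζ]; ring
    · rw [N T.e2 T.add_e2 (fun c x => T.smul_e2 x c)]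
      congr 1 <;> simp [hY3, hY4, hx, mkB, mkX3, mkX4]
  have a3 : Sy 3 (4 * (2 * μ - 12 * ζ * η - 8 * η ^ 3 + 8 * b * ζ + 6 * b * η ^ 2))
      fun j => 24 * (x * g ^ j).e3 := by
    refine (sy_nw3 x.e3 Y1.e3 Y2.e3 Y3.e3).congr ?_ fun j => ?_
    · simp [hY3, hx, mkB, mkX3, hb, hζ, hμ]; ring
    · rw [N T.e3 T.add_e3 (fun c x => T.smul_e3 x c)]
      congr 1; simp [hY4, hx, mkB, mkX4]
  have t3 : Sy 3 (4 * (6 * μ - 12 * ζ * η - 6 * η ^ 3))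
      fun j => 24 * ((x * g ^ j).a3 + (x * g ^ j).d3 + (x * g ^ j).e3) := by
    refine (sy_nw3 (x.a3 + x.d3 + x.e3) (Y1.a3 + Y1.d3 + Y1.e3) (Y2.a3 + Y2.d3 + Y2.e3)
      (Y3.a3 + Y3.d3 + Y3.e3)).congr ?_ fun j => ?_
    · simp [hY3, hx, mkB, mkX3, hζ, hμ]; ring
    · rw [N (fun x => x.a3 + x.d3 + x.e3) (fun x y => by simp; ring) (fun c x => by simp; ring)]
      congr 1; simp [hY4, hx, mkB, mkX4]
  have p0 : ∀ j, 24 * (x * g ^ j).p0 = nw x.p0 0 0 0 0 j + 24 * w1 * ff1 j := fun j => by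
    rw [N T.p0 T.add_p0 (fun c x => T.smul_p0 x c)]
    simp [nw, hY1, hY2, hY3, hY4, hx, mkB, mkX, mkX2, mkX3, mkX4]
  have q0 : ∀ j, 24 * (x * g ^ j).q0 = nw x.q0 0 0 0 0 j + 24 * w2 * ff1 j := fun j => by
    rw [N T.q0 T.add_q0 (fun c x => T.smul_q0 x c)]
    simp [nw, hY1, hY2, hY3, hY4, hx, mkB, mkX, mkX2, mkX3, mkX4]
  have r0 : ∀ j, 24 * (x * g ^ j).r0 = nw x.r0 0 0 0 0 j + 24 * (-2 * w2) * ff1 j := fun j => by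
    rw [N T.r0 T.add_r0 (fun c x => T.smul_r0 x c)]
    simp [nw, hY1, hY2, hY3, hY4, hx, mkB, mkX, mkX2, mkX3, mkX4]
  have s0 : ∀ j, 24 * (x * g ^ j).s0 = nw x.s0 0 0 0 0 j + 24 * (2 * w1) * ff1 j := fun j => by
    rw [N T.s0 T.add_s0 (fun c x => T.smul_s0 x c)]
    simp [nw, hY1, hY2, hY3, hY4, hx, mkB, mkX, mkX2, mkX3, mkX4]
  have p1 : ∀ j, 24 * (x * g ^ j).p1 = nw x.p1 Y1.p1 0 0 0 j + 12 * (-η) * w1 * ff2 j := fun j => by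
    rw [N T.p1 T.add_p1 (fun c x => T.smul_p1 x c)]
    have e2 : Y2.p1 = -η * w1 := by simp [hY2, hx, mkB, mkX2]; ring
    have e3 : Y3.p1 = 0 := by simp [hY3, hx, mkB, mkX3]
    have e4 : Y4.p1 = 0 := by simp [hY4, hx, mkB, mkX4]
    rw [e2, e3, e4]; simp only [nw]; ring
  have q1 : ∀ j, 24 * (x * g ^ j).q1 = nw x.q1 Y1.q1 0 0 0 j + 12 * (-η) * w2 * ff2 j := fun j => by
    rw [N T.q1 T.add_q1 (fun c x => T.smul_q1 x c)]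
    have e2 : Y2.q1 = -η * w2 := by simp [hY2, hx, mkB, mkX2]; ring
    have e3 : Y3.q1 = 0 := by simp [hY3, hx, mkB, mkX3]
    have e4 : Y4.q1 = 0 := by simp [hY4, hx, mkB, mkX4]
    rw [e2, e3, e4]; simp only [nw]; ring
  have p2 : ∀ j, 24 * (x * g ^ j).p2 =
      nw x.p2 Y1.p2 Y2.p2 0 0 j + 4 * (4 * ζ + 3 * η ^ 2) * w1 * ff3 j := fun j => by
    rw [N T.p2 T.add_p2 (fun c x => T.smul_p2 x c)]
    have e3 : Y3.p2 = (4 * ζ + 3 * η ^ 2) * w1 := by simp [hY3, hx, mkB, mkX3, hζ]; ring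
    have e4 : Y4.p2 = 0 := by simp [hY4, hx, mkB, mkX4]
    rw [e3, e4]; simp only [nw]; ring
  have q2 : ∀ j, 24 * (x * g ^ j).q2 =
      nw x.q2 Y1.q2 Y2.q2 0 0 j + 4 * (4 * ζ + 3 * η ^ 2) * w2 * ff3 j := fun j => by
    rw [N T.q2 T.add_q2 (fun c x => T.smul_q2 x c)]
    have e3 : Y3.q2 = (4 * ζ + 3 * η ^ 2) * w2 := by simp [hY3, hx, mkB, mkX3, hζ]; ring
    have e4 : Y4.q2 = 0 := by simp [hY4, hx, mkB, mkX4]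
    rw [e3, e4]; simp only [nw]; ring
  have p3 : ∀ j, 24 * (x * g ^ j).p3 =
      nw x.p3 Y1.p3 Y2.p3 Y3.p3 0 j + (2 * μ - 8 * ζ * η - 5 * η ^ 3) * w1 * ff4 j := fun j => by
    rw [N T.p3 T.add_p3 (fun c x => T.smul_p3 x c)]
    have e4 : Y4.p3 = (2 * μ - 8 * ζ * η - 5 * η ^ 3) * w1 := by
      simp [hY4, hx, mkB, mkX4, hζ, hμ]; ring
    rw [e4]; simp only [nw]; ring
  have q3 : ∀ j, 24 * (x * g ^ j).q3 =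
      nw x.q3 Y1.q3 Y2.q3 Y3.q3 0 j + (2 * μ - 8 * ζ * η - 5 * η ^ 3) * w2 * ff4 j := fun j => by
    rw [N T.q3 T.add_q3 (fun c x => T.smul_q3 x c)]
    have e4 : Y4.q3 = (2 * μ - 8 * ζ * η - 5 * η ^ 3) * w2 := by
      simp [hY4, hx, mkB, mkX4, hζ, hμ]; ring
    rw [e4]; simp only [nw]; ring
  have r3 : ∀ j, 24 * (x * g ^ j).r3 = nw x.r3 Y1.r3 Y2.r3 Y3.r3 0 j +
      (2 * μ - 8 * ζ * η - 5 * η ^ 3 + 8 * b * ζ + 6 * b * η ^ 2) * (-2 * w2) * ff4 j := fun j => by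
    rw [N T.r3 T.add_r3 (fun c x => T.smul_r3 x c)]
    have e4 : Y4.r3 = (2 * μ - 8 * ζ * η - 5 * η ^ 3 + 8 * b * ζ + 6 * b * η ^ 2) * (-2 * w2) := by
      simp [hY4, hx, mkB, mkX4, hb, hζ, hμ]; ring
    rw [e4]; simp only [nw]; ring
  have s3 : ∀ j, 24 * (x * g ^ j).s3 = nw x.s3 Y1.s3 Y2.s3 Y3.s3 0 j +
      (2 * μ - 8 * ζ * η - 5 * η ^ 3 + 8 * b * ζ + 6 * b * η ^ 2) * (2 * w1) * ff4 j := fun j => by
    rw [N T.s3 T.add_s3 (fun c x => T.smul_s3 x c)]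
    have e4 : Y4.s3 = (2 * μ - 8 * ζ * η - 5 * η ^ 3 + 8 * b * ζ + 6 * b * η ^ 2) * (2 * w1) := by
      simp [hY4, hx, mkB, mkX4, hb, hζ, hμ]; ring
    rw [e4]; simp only [nw]; ring
  have S0 : w1 * x.q0 - w2 * x.p0 = -b := by simp [hx, mkB, hb]; ring
  have S1 : w1 * Y1.q1 - w2 * Y1.p1 = ζ + 2 * b * η - b ^ 2 := by
    simp [hY1, hx, mkB, mkX, hb, hζ]; ring
  have S2 : w1 * Y2.q2 - w2 * Y2.p2 = μ - ζ * η - 4 * b * ζ - 4 * b * η ^ 2 + b ^ 2 * η := by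
    simp [hY2, hx, mkB, mkX2, hb, hζ, hμ]; ring
  have S3 : w1 * Y3.q3 - w2 * Y3.p3 = 4 * ζ ^ 2 + 3 * ζ * η ^ 2 - 2 * μ * b + 12 * b * ζ * η +
      8 * b * η ^ 3 - 4 * b ^ 2 * ζ - 3 * b ^ 2 * η ^ 2 := by
    simp [hY3, hx, mkB, mkX3, hb, hζ, hμ]; ring
  have R0 : w1 * x.r0 + w2 * x.s0 = 2 * b := by simp [hx, mkB, hb]; ring
  have R3 : w1 * Y3.r3 + w2 * Y3.s3 = 8 * ζ ^ 2 + 6 * ζ * η ^ 2 + 4 * μ * b + 2 * b * η ^ 3 := by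
    simp [hY3, hx, mkB, mkX3, hb, hζ, hμ]; ring
  have c02 : Sy 3 (24 * (12 * (μ - ζ * η - 4 * b * ζ - 4 * b * η ^ 2 + b ^ 2 * η)) -
      4 * (4 * ζ + 3 * η ^ 2) * (24 * -b))
      fun j => dt (x * g ^ j).p0 (x * g ^ j).q0 (x * g ^ j).p2 (x * g ^ j).q2 :=
    (Sy.det (e := 24) (e' := 4 * (4 * ζ + 3 * η ^ 2)) (w1 := w1) (w2 := w2)
      (sy_nw0 x.p0) (sy_nw0 x.q0) (sy_nw2 x.p2 Y1.p2 Y2.p2) (sy_nw2 x.q2 Y1.q2 Y2.q2)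
      sy_ff1 sy_ff3).congr (by rw [← S0, ← S2]; ring) fun j => by rw [dt, p0, q0, p2, q2]
  have c03 : Sy 4 (24 * (4 * (4 * ζ ^ 2 + 3 * ζ * η ^ 2 - 2 * μ * b + 12 * b * ζ * η +
      8 * b * η ^ 3 - 4 * b ^ 2 * ζ - 3 * b ^ 2 * η ^ 2)) -
      (2 * μ - 8 * ζ * η - 5 * η ^ 3) * (24 * -b))
      fun j => dt (x * g ^ j).p0 (x * g ^ j).q0 (x * g ^ j).p3 (x * g ^ j).q3 :=
    (Sy.det (e := 24) (e' := 2 * μ - 8 * ζ * η - 5 * η ^ 3) (w1 := w1) (w2 := w2)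
      (sy_nw0 x.p0) (sy_nw0 x.q0) (sy_nw3 x.p3 Y1.p3 Y2.p3 Y3.p3)
      (sy_nw3 x.q3 Y1.q3 Y2.q3 Y3.q3) sy_ff1 sy_ff4).congr (by rw [← S0, ← S3]; ring)
      fun j => by rw [dt, p0, q0, p3, q3]
  have c12 : Sy 4 (12 * (-η) * (12 * (μ - ζ * η - 4 * b * ζ - 4 * b * η ^ 2 + b ^ 2 * η)) -
      4 * (4 * ζ + 3 * η ^ 2) * (24 * (ζ + 2 * b * η - b ^ 2)))
      fun j => dt (x * g ^ j).p1 (x * g ^ j).q1 (x * g ^ j).p2 (x * g ^ j).q2 :=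
    (Sy.det (e := 12 * (-η)) (e' := 4 * (4 * ζ + 3 * η ^ 2)) (w1 := w1) (w2 := w2)
      (sy_nw1 x.p1 Y1.p1) (sy_nw1 x.q1 Y1.q1) (sy_nw2 x.p2 Y1.p2 Y2.p2)
      (sy_nw2 x.q2 Y1.q2 Y2.q2) sy_ff2 sy_ff3).congr (by rw [← S1, ← S2]; ring)
      fun j => by rw [dt, p1, q1, p2, q2]
  have rr : Sy 4 (24 * (-8 * (8 * ζ ^ 2 + 6 * ζ * η ^ 2 + 4 * μ * b + 2 * b * η ^ 3)) +
      (2 * μ - 8 * ζ * η - 5 * η ^ 3 + 8 * b * ζ + 6 * b * η ^ 2) * (48 * (2 * b)))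
      fun j => dt (x * g ^ j).r0 (x * g ^ j).s0 (x * g ^ j).r3 (x * g ^ j).s3 :=
    (Sy.det (e := 24) (e' := 2 * μ - 8 * ζ * η - 5 * η ^ 3 + 8 * b * ζ + 6 * b * η ^ 2)
      (w1 := -2 * w2) (w2 := 2 * w1) (sy_nw0 x.r0) (sy_nw0 x.s0) (sy_nw3 x.r3 Y1.r3 Y2.r3 Y3.r3)
      (sy_nw3 x.s3 Y1.s3 Y2.s3 Y3.s3) sy_ff1 sy_ff4).congr (by
        rw [← R3]
        linear_combination
          48 * (2 * μ - 8 * ζ * η - 5 * η ^ 3 + 8 * b * ζ + 6 * b * η ^ 2) * R0)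
      fun j => by rw [dt, r0, s0, r3, s3]
  have hb' : x.q0 * g.p0 - x.p0 * g.q0 = -b := by simp [hx, hg, mkB, hb]
  rw [hb']
  exact ⟨(sy_F4 a1 a2 a3 t3 rr c03 c12).congr (by rw [F4]; ring) fun _ => rfl,
    (sy_F6 a1 a2 a3 t3 rr c02 c03 c12).congr (by rw [F6]; ring) fun _ => rfl⟩

/-- The function `θ`. -/
def th (p i j : ℕ) (x : T Λ) : Λ := (x.p0 * x.q0) ^ (p - 1) - f4 x ^ i * f6 x ^ j

theorem map_th (f : Λ →+* Λ') (p i j : ℕ) (x : T Λ) : f (th p i j x) = th p i j (T.map f x) := by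
  simp [th, map_f4, map_f6]

theorem star {p : ℕ} [Fact p.Prime] [Algebra (ZMod p) Λ] (h5 : 5 ≤ p) {a b : ℕ}
    (hab : p - 1 = 4 * a + 6 * b) {x g : T Λ} (hx : InB x) (hg : InB g) :
    ∑ j ∈ range p, th p a b (x * g ^ j) = -(g.p0 * g.q0) ^ (p - 1) := by
  have hp : p.Prime := Fact.out
  obtain ⟨h4, h6⟩ := sy_f hx hg
  have h1 := (h4.pow a).mul (h6.pow b)
  rw [← hab, ← pow_mul, ← pow_mul, ← pow_add, ← hab] at h1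
  have h48 : (48 : Λ) ^ (p - 1) = 1 := by
    have h0 : ((48 : ℕ) : ZMod p) ≠ 0 := by
      rw [Ne, ZMod.natCast_eq_zero_iff]
      intro hd
      have h2 : p ∣ 2 ^ 4 * 3 := hd
      rcases (Nat.Prime.dvd_mul hp).1 h2 with h | h
      · have := Nat.le_of_dvd two_pos (hp.dvd_of_dvd_pow h); omega
      · have := Nat.le_of_dvd three_pos h; omega
    have := congrArg (algebraMap (ZMod p) Λ) (ZMod.pow_card_sub_one_eq_one h0)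
    simpa [map_ofNat] using this
  have e : ∀ j : ℕ, (x * g ^ j).p0 * (x * g ^ j).q0 = (x.p0 + j * g.p0) * (x.q0 + j * g.q0) :=
    fun j => by rw [hx.mul_p0 (hg.pow j), hx.mul_q0 (hg.pow j), hg.pow_p0, hg.pow_q0]
  simp only [th, sum_sub_distrib, e]
  rw [sum_uv, h1.sum, mul_pow (48 : Λ), h48]
  ring

end Pool.Agent.MP_570645_al.H38
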