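import Mathlib

/-! Three by three matrices over truncated polynomials, graded by parity. -/

set_option autoImplicit false

namespace Pool.Agent.MP_570645_al.H38

/-- Entries `a b c d e` of even degree `0 2 4 6`, entries `p q r s` of odd degree `1 3 5 7`. -/
@[ext] structure T (Λ : Type) where
  (a0 b0 c0 d0 e0 p0 q0 r0 s0 : Λ)
  (a1 b1 c1 d1 e1 p1 q1 r1 s1 : Λ)
  (a2 b2 c2 d2 e2 p2 q2 r2 s2 : Λ)
  (a3 b3 c3 d3 e3 p3 q3 r3 s3 : Λ)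

namespace T

variable {Λ Λ' : Type} [CommRing Λ] [CommRing Λ']

instance : Zero (T Λ) := ⟨
  ⟨0, 0, 0, 0, 0, 0, 0, 0, 0, 0, 0, 0, 0, 0, 0, 0, 0, 0, 0, 0, 0, 0, 0, 0, 0, 0, 0, 0, 0, 0, 0,
   0, 0, 0, 0, 0⟩⟩

instance : One (T Λ) := ⟨
  ⟨1, 0, 0, 1, 1, 0, 0, 0, 0, 0, 0, 0, 0, 0, 0, 0, 0, 0, 0, 0, 0, 0, 0, 0, 0, 0, 0, 0, 0, 0, 0,
   0, 0, 0, 0, 0⟩⟩

instance : Add (T Λ) := ⟨fun x y =>
  ⟨x.a0 + y.a0, x.b0 + y.b0, x.c0 + y.c0, x.d0 + y.d0, x.e0 + y.e0, x.p0 + y.p0, x.q0 + y.q0,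
   x.r0 + y.r0, x.s0 + y.s0, x.a1 + y.a1, x.b1 + y.b1, x.c1 + y.c1, x.d1 + y.d1, x.e1 + y.e1,
   x.p1 + y.p1, x.q1 + y.q1, x.r1 + y.r1, x.s1 + y.s1, x.a2 + y.a2, x.b2 + y.b2, x.c2 + y.c2,
   x.d2 + y.d2, x.e2 + y.e2, x.p2 + y.p2, x.q2 + y.q2, x.r2 + y.r2, x.s2 + y.s2, x.a3 + y.a3,
   x.b3 + y.b3, x.c3 + y.c3, x.d3 + y.d3, x.e3 + y.e3, x.p3 + y.p3, x.q3 + y.q3, x.r3 + y.r3,
   x.s3 + y.s3⟩⟩

instance : Neg (T Λ) := ⟨fun x =>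
  ⟨-x.a0, -x.b0, -x.c0, -x.d0, -x.e0, -x.p0, -x.q0, -x.r0, -x.s0, -x.a1, -x.b1, -x.c1, -x.d1,
   -x.e1, -x.p1, -x.q1, -x.r1, -x.s1, -x.a2, -x.b2, -x.c2, -x.d2, -x.e2, -x.p2, -x.q2, -x.r2,
   -x.s2, -x.a3, -x.b3, -x.c3, -x.d3, -x.e3, -x.p3, -x.q3, -x.r3, -x.s3⟩⟩

instance : SMul Λ (T Λ) := ⟨fun k x =>
  ⟨k * x.a0, k * x.b0, k * x.c0, k * x.d0, k * x.e0, k * x.p0, k * x.q0, k * x.r0, k * x.s0,
   k * x.a1, k * x.b1, k * x.c1, k * x.d1, k * x.e1, k * x.p1, k * x.q1, k * x.r1, k * x.s1,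
   k * x.a2, k * x.b2, k * x.c2, k * x.d2, k * x.e2, k * x.p2, k * x.q2, k * x.r2, k * x.s2,
   k * x.a3, k * x.b3, k * x.c3, k * x.d3, k * x.e3, k * x.p3, k * x.q3, k * x.r3, k * x.s3⟩⟩

instance : Mul (T Λ) := ⟨fun x y =>
  { a0 := x.a0 * y.a0 + x.b0 * y.c0
    b0 := x.a0 * y.b0 + x.b0 * y.d0
    c0 := x.c0 * y.a0 + x.d0 * y.c0
    d0 := x.c0 * y.b0 + x.d0 * y.d0
    e0 := x.e0 * y.e0
    p0 := x.a0 * y.p0 + x.b0 * y.q0 + x.p0 * y.e0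
    q0 := x.c0 * y.p0 + x.d0 * y.q0 + x.q0 * y.e0
    r0 := x.e0 * y.r0 + x.r0 * y.a0 + x.s0 * y.c0
    s0 := x.e0 * y.s0 + x.r0 * y.b0 + x.s0 * y.d0
    a1 := x.a0 * y.a1 + x.b0 * y.c1 + x.p0 * y.r0 + x.a1 * y.a0 + x.b1 * y.c0
    b1 := x.a0 * y.b1 + x.b0 * y.d1 + x.p0 * y.s0 + x.a1 * y.b0 + x.b1 * y.d0
    c1 := x.c0 * y.a1 + x.d0 * y.c1 + x.q0 * y.r0 + x.c1 * y.a0 + x.d1 * y.c0
    d1 := x.c0 * y.b1 + x.d0 * y.d1 + x.q0 * y.s0 + x.c1 * y.b0 + x.d1 * y.d0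
    e1 := x.e0 * y.e1 + x.r0 * y.p0 + x.s0 * y.q0 + x.e1 * y.e0
    p1 := x.a0 * y.p1 + x.b0 * y.q1 + x.p0 * y.e1 + x.a1 * y.p0 + x.b1 * y.q0 + x.p1 * y.e0
    q1 := x.c0 * y.p1 + x.d0 * y.q1 + x.q0 * y.e1 + x.c1 * y.p0 + x.d1 * y.q0 + x.q1 * y.e0
    r1 := x.e0 * y.r1 + x.r0 * y.a1 + x.s0 * y.c1 + x.e1 * y.r0 + x.r1 * y.a0 + x.s1 * y.c0
    s1 := x.e0 * y.s1 + x.r0 * y.b1 + x.s0 * y.d1 + x.e1 * y.s0 + x.r1 * y.b0 + x.s1 * y.d0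
    a2 := x.a0 * y.a2 + x.b0 * y.c2 + x.p0 * y.r1 + x.a1 * y.a1 + x.b1 * y.c1 + x.p1 * y.r0 + x.a2 * y.a0 + x.b2 * y.c0
    b2 := x.a0 * y.b2 + x.b0 * y.d2 + x.p0 * y.s1 + x.a1 * y.b1 + x.b1 * y.d1 + x.p1 * y.s0 + x.a2 * y.b0 + x.b2 * y.d0
    c2 := x.c0 * y.a2 + x.d0 * y.c2 + x.q0 * y.r1 + x.c1 * y.a1 + x.d1 * y.c1 + x.q1 * y.r0 + x.c2 * y.a0 + x.d2 * y.c0
    d2 := x.c0 * y.b2 + x.d0 * y.d2 + x.q0 * y.s1 + x.c1 * y.b1 + x.d1 * y.d1 + x.q1 * y.s0 + x.c2 * y.b0 + x.d2 * y.d0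
    e2 := x.e0 * y.e2 + x.r0 * y.p1 + x.s0 * y.q1 + x.e1 * y.e1 + x.r1 * y.p0 + x.s1 * y.q0 + x.e2 * y.e0
    p2 := x.a0 * y.p2 + x.b0 * y.q2 + x.p0 * y.e2 + x.a1 * y.p1 + x.b1 * y.q1 + x.p1 * y.e1 + x.a2 * y.p0 + x.b2 * y.q0 + x.p2 * y.e0
    q2 := x.c0 * y.p2 + x.d0 * y.q2 + x.q0 * y.e2 + x.c1 * y.p1 + x.d1 * y.q1 + x.q1 * y.e1 + x.c2 * y.p0 + x.d2 * y.q0 + x.q2 * y.e0
    r2 := x.e0 * y.r2 + x.r0 * y.a2 + x.s0 * y.c2 + x.e1 * y.r1 + x.r1 * y.a1 + x.s1 * y.c1 + x.e2 * y.r0 + x.r2 * y.a0 + x.s2 * y.c0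
    s2 := x.e0 * y.s2 + x.r0 * y.b2 + x.s0 * y.d2 + x.e1 * y.s1 + x.r1 * y.b1 + x.s1 * y.d1 + x.e2 * y.s0 + x.r2 * y.b0 + x.s2 * y.d0
    a3 := x.a0 * y.a3 + x.b0 * y.c3 + x.p0 * y.r2 + x.a1 * y.a2 + x.b1 * y.c2 + x.p1 * y.r1 + x.a2 * y.a1 + x.b2 * y.c1 + x.p2 * y.r0 + x.a3 * y.a0 + x.b3 * y.c0
    b3 := x.a0 * y.b3 + x.b0 * y.d3 + x.p0 * y.s2 + x.a1 * y.b2 + x.b1 * y.d2 + x.p1 * y.s1 + x.a2 * y.b1 + x.b2 * y.d1 + x.p2 * y.s0 + x.a3 * y.b0 + x.b3 * y.d0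
    c3 := x.c0 * y.a3 + x.d0 * y.c3 + x.q0 * y.r2 + x.c1 * y.a2 + x.d1 * y.c2 + x.q1 * y.r1 + x.c2 * y.a1 + x.d2 * y.c1 + x.q2 * y.r0 + x.c3 * y.a0 + x.d3 * y.c0
    d3 := x.c0 * y.b3 + x.d0 * y.d3 + x.q0 * y.s2 + x.c1 * y.b2 + x.d1 * y.d2 + x.q1 * y.s1 + x.c2 * y.b1 + x.d2 * y.d1 + x.q2 * y.s0 + x.c3 * y.b0 + x.d3 * y.d0
    e3 := x.e0 * y.e3 + x.r0 * y.p2 + x.s0 * y.q2 + x.e1 * y.e2 + x.r1 * y.p1 + x.s1 * y.q1 + x.e2 * y.e1 + x.r2 * y.p0 + x.s2 * y.q0 + x.e3 * y.e0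
    p3 := x.a0 * y.p3 + x.b0 * y.q3 + x.p0 * y.e3 + x.a1 * y.p2 + x.b1 * y.q2 + x.p1 * y.e2 + x.a2 * y.p1 + x.b2 * y.q1 + x.p2 * y.e1 + x.a3 * y.p0 + x.b3 * y.q0 + x.p3 * y.e0
    q3 := x.c0 * y.p3 + x.d0 * y.q3 + x.q0 * y.e3 + x.c1 * y.p2 + x.d1 * y.q2 + x.q1 * y.e2 + x.c2 * y.p1 + x.d2 * y.q1 + x.q2 * y.e1 + x.c3 * y.p0 + x.d3 * y.q0 + x.q3 * y.e0
    r3 := x.e0 * y.r3 + x.r0 * y.a3 + x.s0 * y.c3 + x.e1 * y.r2 + x.r1 * y.a2 + x.s1 * y.c2 + x.e2 * y.r1 + x.r2 * y.a1 + x.s2 * y.c1 + x.e3 * y.r0 + x.r3 * y.a0 + x.s3 * y.c0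
    s3 := x.e0 * y.s3 + x.r0 * y.b3 + x.s0 * y.d3 + x.e1 * y.s2 + x.r1 * y.b2 + x.s1 * y.d2 + x.e2 * y.s1 + x.r2 * y.b1 + x.s2 * y.d1 + x.e3 * y.s0 + x.r3 * y.b0 + x.s3 * y.d0 }⟩

/-- Apply a function to all entries. -/
def map (f : Λ → Λ') (x : T Λ) : T Λ' :=
  ⟨f x.a0, f x.b0, f x.c0, f x.d0, f x.e0, f x.p0, f x.q0, f x.r0, f x.s0,
   f x.a1, f x.b1, f x.c1, f x.d1, f x.e1, f x.p1, f x.q1, f x.r1, f x.s1,
   f x.a2, f x.b2, f x.c2, f x.d2, f x.e2, f x.p2, f x.q2, f x.r2, f x.s2,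
   f x.a3, f x.b3, f x.c3, f x.d3, f x.e3, f x.p3, f x.q3, f x.r3, f x.s3⟩

section

variable (x y : T Λ) (k : Λ) (f : Λ → Λ')

@[simp] theorem zero_a0 : (0 : T Λ).a0 = 0 := rfl
@[simp] theorem one_a0 : (1 : T Λ).a0 = 1 := rfl
@[simp] theorem add_a0 : (x + y).a0 = x.a0 + y.a0 := rfl
@[simp] theorem neg_a0 : (-x).a0 = -x.a0 := rfl
@[simp] theorem smul_a0 : (k • x).a0 = k * x.a0 := rfl
@[simp] theorem mul_a0 : (x * y).a0 =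
    x.a0 * y.a0 + x.b0 * y.c0 := rfl
omit [CommRing Λ] [CommRing Λ'] in
@[simp] theorem map_a0 : (map f x).a0 = f x.a0 := rfl
@[simp] theorem zero_b0 : (0 : T Λ).b0 = 0 := rfl
@[simp] theorem one_b0 : (1 : T Λ).b0 = 0 := rfl
@[simp] theorem add_b0 : (x + y).b0 = x.b0 + y.b0 := rfl
@[simp] theorem neg_b0 : (-x).b0 = -x.b0 := rfl
@[simp] theorem smul_b0 : (k • x).b0 = k * x.b0 := rfl
@[simp] theorem mul_b0 : (x * y).b0 =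
    x.a0 * y.b0 + x.b0 * y.d0 := rfl
omit [CommRing Λ] [CommRing Λ'] in
@[simp] theorem map_b0 : (map f x).b0 = f x.b0 := rfl
@[simp] theorem zero_c0 : (0 : T Λ).c0 = 0 := rfl
@[simp] theorem one_c0 : (1 : T Λ).c0 = 0 := rfl
@[simp] theorem add_c0 : (x + y).c0 = x.c0 + y.c0 := rfl
@[simp] theorem neg_c0 : (-x).c0 = -x.c0 := rfl
@[simp] theorem smul_c0 : (k • x).c0 = k * x.c0 := rfl
@[simp] theorem mul_c0 : (x * y).c0 =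
    x.c0 * y.a0 + x.d0 * y.c0 := rfl
omit [CommRing Λ] [CommRing Λ'] in
@[simp] theorem map_c0 : (map f x).c0 = f x.c0 := rfl
@[simp] theorem zero_d0 : (0 : T Λ).d0 = 0 := rfl
@[simp] theorem one_d0 : (1 : T Λ).d0 = 1 := rfl
@[simp] theorem add_d0 : (x + y).d0 = x.d0 + y.d0 := rfl
@[simp] theorem neg_d0 : (-x).d0 = -x.d0 := rfl
@[simp] theorem smul_d0 : (k • x).d0 = k * x.d0 := rfl
@[simp] theorem mul_d0 : (x * y).d0 =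
    x.c0 * y.b0 + x.d0 * y.d0 := rfl
omit [CommRing Λ] [CommRing Λ'] in
@[simp] theorem map_d0 : (map f x).d0 = f x.d0 := rfl
@[simp] theorem zero_e0 : (0 : T Λ).e0 = 0 := rfl
@[simp] theorem one_e0 : (1 : T Λ).e0 = 1 := rfl
@[simp] theorem add_e0 : (x + y).e0 = x.e0 + y.e0 := rfl
@[simp] theorem neg_e0 : (-x).e0 = -x.e0 := rfl
@[simp] theorem smul_e0 : (k • x).e0 = k * x.e0 := rfl
@[simp] theorem mul_e0 : (x * y).e0 =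
    x.e0 * y.e0 := rfl
omit [CommRing Λ] [CommRing Λ'] in
@[simp] theorem map_e0 : (map f x).e0 = f x.e0 := rfl
@[simp] theorem zero_p0 : (0 : T Λ).p0 = 0 := rfl
@[simp] theorem one_p0 : (1 : T Λ).p0 = 0 := rfl
@[simp] theorem add_p0 : (x + y).p0 = x.p0 + y.p0 := rfl
@[simp] theorem neg_p0 : (-x).p0 = -x.p0 := rfl
@[simp] theorem smul_p0 : (k • x).p0 = k * x.p0 := rfl
@[simp] theorem mul_p0 : (x * y).p0 =
    x.a0 * y.p0 + x.b0 * y.q0 + x.p0 * y.e0 := rfl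
omit [CommRing Λ] [CommRing Λ'] in
@[simp] theorem map_p0 : (map f x).p0 = f x.p0 := rfl
@[simp] theorem zero_q0 : (0 : T Λ).q0 = 0 := rfl
@[simp] theorem one_q0 : (1 : T Λ).q0 = 0 := rfl
@[simp] theorem add_q0 : (x + y).q0 = x.q0 + y.q0 := rfl
@[simp] theorem neg_q0 : (-x).q0 = -x.q0 := rfl
@[simp] theorem smul_q0 : (k • x).q0 = k * x.q0 := rfl
@[simp] theorem mul_q0 : (x * y).q0 =
    x.c0 * y.p0 + x.d0 * y.q0 + x.q0 * y.e0 := rfl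
omit [CommRing Λ] [CommRing Λ'] in
@[simp] theorem map_q0 : (map f x).q0 = f x.q0 := rfl
@[simp] theorem zero_r0 : (0 : T Λ).r0 = 0 := rfl
@[simp] theorem one_r0 : (1 : T Λ).r0 = 0 := rfl
@[simp] theorem add_r0 : (x + y).r0 = x.r0 + y.r0 := rfl
@[simp] theorem neg_r0 : (-x).r0 = -x.r0 := rfl
@[simp] theorem smul_r0 : (k • x).r0 = k * x.r0 := rfl
@[simp] theorem mul_r0 : (x * y).r0 =
    x.e0 * y.r0 + x.r0 * y.a0 + x.s0 * y.c0 := rfl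
omit [CommRing Λ] [CommRing Λ'] in
@[simp] theorem map_r0 : (map f x).r0 = f x.r0 := rfl
@[simp] theorem zero_s0 : (0 : T Λ).s0 = 0 := rfl
@[simp] theorem one_s0 : (1 : T Λ).s0 = 0 := rfl
@[simp] theorem add_s0 : (x + y).s0 = x.s0 + y.s0 := rfl
@[simp] theorem neg_s0 : (-x).s0 = -x.s0 := rfl
@[simp] theorem smul_s0 : (k • x).s0 = k * x.s0 := rfl
@[simp] theorem mul_s0 : (x * y).s0 =
    x.e0 * y.s0 + x.r0 * y.b0 + x.s0 * y.d0 := rfl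
omit [CommRing Λ] [CommRing Λ'] in
@[simp] theorem map_s0 : (map f x).s0 = f x.s0 := rfl
@[simp] theorem zero_a1 : (0 : T Λ).a1 = 0 := rfl
@[simp] theorem one_a1 : (1 : T Λ).a1 = 0 := rfl
@[simp] theorem add_a1 : (x + y).a1 = x.a1 + y.a1 := rfl
@[simp] theorem neg_a1 : (-x).a1 = -x.a1 := rfl
@[simp] theorem smul_a1 : (k • x).a1 = k * x.a1 := rfl
@[simp] theorem mul_a1 : (x * y).a1 =
    x.a0 * y.a1 + x.b0 * y.c1 + x.p0 * y.r0 + x.a1 * y.a0 + x.b1 * y.c0 := rfl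
omit [CommRing Λ] [CommRing Λ'] in
@[simp] theorem map_a1 : (map f x).a1 = f x.a1 := rfl
@[simp] theorem zero_b1 : (0 : T Λ).b1 = 0 := rfl
@[simp] theorem one_b1 : (1 : T Λ).b1 = 0 := rfl
@[simp] theorem add_b1 : (x + y).b1 = x.b1 + y.b1 := rfl
@[simp] theorem neg_b1 : (-x).b1 = -x.b1 := rfl
@[simp] theorem smul_b1 : (k • x).b1 = k * x.b1 := rfl
@[simp] theorem mul_b1 : (x * y).b1 =
    x.a0 * y.b1 + x.b0 * y.d1 + x.p0 * y.s0 + x.a1 * y.b0 + x.b1 * y.d0 := rfl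
omit [CommRing Λ] [CommRing Λ'] in
@[simp] theorem map_b1 : (map f x).b1 = f x.b1 := rfl
@[simp] theorem zero_c1 : (0 : T Λ).c1 = 0 := rfl
@[simp] theorem one_c1 : (1 : T Λ).c1 = 0 := rfl
@[simp] theorem add_c1 : (x + y).c1 = x.c1 + y.c1 := rfl
@[simp] theorem neg_c1 : (-x).c1 = -x.c1 := rfl
@[simp] theorem smul_c1 : (k • x).c1 = k * x.c1 := rfl
@[simp] theorem mul_c1 : (x * y).c1 =
    x.c0 * y.a1 + x.d0 * y.c1 + x.q0 * y.r0 + x.c1 * y.a0 + x.d1 * y.c0 := rfl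
omit [CommRing Λ] [CommRing Λ'] in
@[simp] theorem map_c1 : (map f x).c1 = f x.c1 := rfl
@[simp] theorem zero_d1 : (0 : T Λ).d1 = 0 := rfl
@[simp] theorem one_d1 : (1 : T Λ).d1 = 0 := rfl
@[simp] theorem add_d1 : (x + y).d1 = x.d1 + y.d1 := rfl
@[simp] theorem neg_d1 : (-x).d1 = -x.d1 := rfl
@[simp] theorem smul_d1 : (k • x).d1 = k * x.d1 := rfl
@[simp] theorem mul_d1 : (x * y).d1 =
    x.c0 * y.b1 + x.d0 * y.d1 + x.q0 * y.s0 + x.c1 * y.b0 + x.d1 * y.d0 := rfl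
omit [CommRing Λ] [CommRing Λ'] in
@[simp] theorem map_d1 : (map f x).d1 = f x.d1 := rfl
@[simp] theorem zero_e1 : (0 : T Λ).e1 = 0 := rfl
@[simp] theorem one_e1 : (1 : T Λ).e1 = 0 := rfl
@[simp] theorem add_e1 : (x + y).e1 = x.e1 + y.e1 := rfl
@[simp] theorem neg_e1 : (-x).e1 = -x.e1 := rfl
@[simp] theorem smul_e1 : (k • x).e1 = k * x.e1 := rfl
@[simp] theorem mul_e1 : (x * y).e1 =
    x.e0 * y.e1 + x.r0 * y.p0 + x.s0 * y.q0 + x.e1 * y.e0 := rfl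
omit [CommRing Λ] [CommRing Λ'] in
@[simp] theorem map_e1 : (map f x).e1 = f x.e1 := rfl
@[simp] theorem zero_p1 : (0 : T Λ).p1 = 0 := rfl
@[simp] theorem one_p1 : (1 : T Λ).p1 = 0 := rfl
@[simp] theorem add_p1 : (x + y).p1 = x.p1 + y.p1 := rfl
@[simp] theorem neg_p1 : (-x).p1 = -x.p1 := rfl
@[simp] theorem smul_p1 : (k • x).p1 = k * x.p1 := rfl
@[simp] theorem mul_p1 : (x * y).p1 =
    x.a0 * y.p1 + x.b0 * y.q1 + x.p0 * y.e1 + x.a1 * y.p0 + x.b1 * y.q0 + x.p1 * y.e0 := rfl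
omit [CommRing Λ] [CommRing Λ'] in
@[simp] theorem map_p1 : (map f x).p1 = f x.p1 := rfl
@[simp] theorem zero_q1 : (0 : T Λ).q1 = 0 := rfl
@[simp] theorem one_q1 : (1 : T Λ).q1 = 0 := rfl
@[simp] theorem add_q1 : (x + y).q1 = x.q1 + y.q1 := rfl
@[simp] theorem neg_q1 : (-x).q1 = -x.q1 := rfl
@[simp] theorem smul_q1 : (k • x).q1 = k * x.q1 := rfl
@[simp] theorem mul_q1 : (x * y).q1 =
    x.c0 * y.p1 + x.d0 * y.q1 + x.q0 * y.e1 + x.c1 * y.p0 + x.d1 * y.q0 + x.q1 * y.e0 := rfl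
omit [CommRing Λ] [CommRing Λ'] in
@[simp] theorem map_q1 : (map f x).q1 = f x.q1 := rfl
@[simp] theorem zero_r1 : (0 : T Λ).r1 = 0 := rfl
@[simp] theorem one_r1 : (1 : T Λ).r1 = 0 := rfl
@[simp] theorem add_r1 : (x + y).r1 = x.r1 + y.r1 := rfl
@[simp] theorem neg_r1 : (-x).r1 = -x.r1 := rfl
@[simp] theorem smul_r1 : (k • x).r1 = k * x.r1 := rfl
@[simp] theorem mul_r1 : (x * y).r1 =
    x.e0 * y.r1 + x.r0 * y.a1 + x.s0 * y.c1 + x.e1 * y.r0 + x.r1 * y.a0 + x.s1 * y.c0 := rfl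
omit [CommRing Λ] [CommRing Λ'] in
@[simp] theorem map_r1 : (map f x).r1 = f x.r1 := rfl
@[simp] theorem zero_s1 : (0 : T Λ).s1 = 0 := rfl
@[simp] theorem one_s1 : (1 : T Λ).s1 = 0 := rfl
@[simp] theorem add_s1 : (x + y).s1 = x.s1 + y.s1 := rfl
@[simp] theorem neg_s1 : (-x).s1 = -x.s1 := rfl
@[simp] theorem smul_s1 : (k • x).s1 = k * x.s1 := rfl
@[simp] theorem mul_s1 : (x * y).s1 =
    x.e0 * y.s1 + x.r0 * y.b1 + x.s0 * y.d1 + x.e1 * y.s0 + x.r1 * y.b0 + x.s1 * y.d0 := rfl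
omit [CommRing Λ] [CommRing Λ'] in
@[simp] theorem map_s1 : (map f x).s1 = f x.s1 := rfl
@[simp] theorem zero_a2 : (0 : T Λ).a2 = 0 := rfl
@[simp] theorem one_a2 : (1 : T Λ).a2 = 0 := rfl
@[simp] theorem add_a2 : (x + y).a2 = x.a2 + y.a2 := rfl
@[simp] theorem neg_a2 : (-x).a2 = -x.a2 := rfl
@[simp] theorem smul_a2 : (k • x).a2 = k * x.a2 := rfl
@[simp] theorem mul_a2 : (x * y).a2 =
    x.a0 * y.a2 + x.b0 * y.c2 + x.p0 * y.r1 + x.a1 * y.a1 + x.b1 * y.c1 + x.p1 * y.r0 + x.a2 * y.a0 + x.b2 * y.c0 := rfl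
omit [CommRing Λ] [CommRing Λ'] in
@[simp] theorem map_a2 : (map f x).a2 = f x.a2 := rfl
@[simp] theorem zero_b2 : (0 : T Λ).b2 = 0 := rfl
@[simp] theorem one_b2 : (1 : T Λ).b2 = 0 := rfl
@[simp] theorem add_b2 : (x + y).b2 = x.b2 + y.b2 := rfl
@[simp] theorem neg_b2 : (-x).b2 = -x.b2 := rfl
@[simp] theorem smul_b2 : (k • x).b2 = k * x.b2 := rfl
@[simp] theorem mul_b2 : (x * y).b2 =
    x.a0 * y.b2 + x.b0 * y.d2 + x.p0 * y.s1 + x.a1 * y.b1 + x.b1 * y.d1 + x.p1 * y.s0 + x.a2 * y.b0 + x.b2 * y.d0 := rfl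
omit [CommRing Λ] [CommRing Λ'] in
@[simp] theorem map_b2 : (map f x).b2 = f x.b2 := rfl
@[simp] theorem zero_c2 : (0 : T Λ).c2 = 0 := rfl
@[simp] theorem one_c2 : (1 : T Λ).c2 = 0 := rfl
@[simp] theorem add_c2 : (x + y).c2 = x.c2 + y.c2 := rfl
@[simp] theorem neg_c2 : (-x).c2 = -x.c2 := rfl
@[simp] theorem smul_c2 : (k • x).c2 = k * x.c2 := rfl
@[simp] theorem mul_c2 : (x * y).c2 =
    x.c0 * y.a2 + x.d0 * y.c2 + x.q0 * y.r1 + x.c1 * y.a1 + x.d1 * y.c1 + x.q1 * y.r0 + x.c2 * y.a0 + x.d2 * y.c0 := rfl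
omit [CommRing Λ] [CommRing Λ'] in
@[simp] theorem map_c2 : (map f x).c2 = f x.c2 := rfl
@[simp] theorem zero_d2 : (0 : T Λ).d2 = 0 := rfl
@[simp] theorem one_d2 : (1 : T Λ).d2 = 0 := rfl
@[simp] theorem add_d2 : (x + y).d2 = x.d2 + y.d2 := rfl
@[simp] theorem neg_d2 : (-x).d2 = -x.d2 := rfl
@[simp] theorem smul_d2 : (k • x).d2 = k * x.d2 := rfl
@[simp] theorem mul_d2 : (x * y).d2 =
    x.c0 * y.b2 + x.d0 * y.d2 + x.q0 * y.s1 + x.c1 * y.b1 + x.d1 * y.d1 + x.q1 * y.s0 + x.c2 * y.b0 + x.d2 * y.d0 := rfl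
omit [CommRing Λ] [CommRing Λ'] in
@[simp] theorem map_d2 : (map f x).d2 = f x.d2 := rfl
@[simp] theorem zero_e2 : (0 : T Λ).e2 = 0 := rfl
@[simp] theorem one_e2 : (1 : T Λ).e2 = 0 := rfl
@[simp] theorem add_e2 : (x + y).e2 = x.e2 + y.e2 := rfl
@[simp] theorem neg_e2 : (-x).e2 = -x.e2 := rfl
@[simp] theorem smul_e2 : (k • x).e2 = k * x.e2 := rfl
@[simp] theorem mul_e2 : (x * y).e2 =
    x.e0 * y.e2 + x.r0 * y.p1 + x.s0 * y.q1 + x.e1 * y.e1 + x.r1 * y.p0 + x.s1 * y.q0 + x.e2 * y.e0 := rfl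
omit [CommRing Λ] [CommRing Λ'] in
@[simp] theorem map_e2 : (map f x).e2 = f x.e2 := rfl
@[simp] theorem zero_p2 : (0 : T Λ).p2 = 0 := rfl
@[simp] theorem one_p2 : (1 : T Λ).p2 = 0 := rfl
@[simp] theorem add_p2 : (x + y).p2 = x.p2 + y.p2 := rfl
@[simp] theorem neg_p2 : (-x).p2 = -x.p2 := rfl
@[simp] theorem smul_p2 : (k • x).p2 = k * x.p2 := rfl
@[simp] theorem mul_p2 : (x * y).p2 =
    x.a0 * y.p2 + x.b0 * y.q2 + x.p0 * y.e2 + x.a1 * y.p1 + x.b1 * y.q1 + x.p1 * y.e1 + x.a2 * y.p0 + x.b2 * y.q0 + x.p2 * y.e0 := rfl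
omit [CommRing Λ] [CommRing Λ'] in
@[simp] theorem map_p2 : (map f x).p2 = f x.p2 := rfl
@[simp] theorem zero_q2 : (0 : T Λ).q2 = 0 := rfl
@[simp] theorem one_q2 : (1 : T Λ).q2 = 0 := rfl
@[simp] theorem add_q2 : (x + y).q2 = x.q2 + y.q2 := rfl
@[simp] theorem neg_q2 : (-x).q2 = -x.q2 := rfl
@[simp] theorem smul_q2 : (k • x).q2 = k * x.q2 := rfl
@[simp] theorem mul_q2 : (x * y).q2 =
    x.c0 * y.p2 + x.d0 * y.q2 + x.q0 * y.e2 + x.c1 * y.p1 + x.d1 * y.q1 + x.q1 * y.e1 + x.c2 * y.p0 + x.d2 * y.q0 + x.q2 * y.e0 := rfl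
omit [CommRing Λ] [CommRing Λ'] in
@[simp] theorem map_q2 : (map f x).q2 = f x.q2 := rfl
@[simp] theorem zero_r2 : (0 : T Λ).r2 = 0 := rfl
@[simp] theorem one_r2 : (1 : T Λ).r2 = 0 := rfl
@[simp] theorem add_r2 : (x + y).r2 = x.r2 + y.r2 := rfl
@[simp] theorem neg_r2 : (-x).r2 = -x.r2 := rfl
@[simp] theorem smul_r2 : (k • x).r2 = k * x.r2 := rfl
@[simp] theorem mul_r2 : (x * y).r2 =
    x.e0 * y.r2 + x.r0 * y.a2 + x.s0 * y.c2 + x.e1 * y.r1 + x.r1 * y.a1 + x.s1 * y.c1 + x.e2 * y.r0 + x.r2 * y.a0 + x.s2 * y.c0 := rfl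
omit [CommRing Λ] [CommRing Λ'] in
@[simp] theorem map_r2 : (map f x).r2 = f x.r2 := rfl
@[simp] theorem zero_s2 : (0 : T Λ).s2 = 0 := rfl
@[simp] theorem one_s2 : (1 : T Λ).s2 = 0 := rfl
@[simp] theorem add_s2 : (x + y).s2 = x.s2 + y.s2 := rfl
@[simp] theorem neg_s2 : (-x).s2 = -x.s2 := rfl
@[simp] theorem smul_s2 : (k • x).s2 = k * x.s2 := rfl
@[simp] theorem mul_s2 : (x * y).s2 =
    x.e0 * y.s2 + x.r0 * y.b2 + x.s0 * y.d2 + x.e1 * y.s1 + x.r1 * y.b1 + x.s1 * y.d1 + x.e2 * y.s0 + x.r2 * y.b0 + x.s2 * y.d0 := rfl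
omit [CommRing Λ] [CommRing Λ'] in
@[simp] theorem map_s2 : (map f x).s2 = f x.s2 := rfl
@[simp] theorem zero_a3 : (0 : T Λ).a3 = 0 := rfl
@[simp] theorem one_a3 : (1 : T Λ).a3 = 0 := rfl
@[simp] theorem add_a3 : (x + y).a3 = x.a3 + y.a3 := rfl
@[simp] theorem neg_a3 : (-x).a3 = -x.a3 := rfl
@[simp] theorem smul_a3 : (k • x).a3 = k * x.a3 := rfl
@[simp] theorem mul_a3 : (x * y).a3 =
    x.a0 * y.a3 + x.b0 * y.c3 + x.p0 * y.r2 + x.a1 * y.a2 + x.b1 * y.c2 + x.p1 * y.r1 + x.a2 * y.a1 + x.b2 * y.c1 + x.p2 * y.r0 + x.a3 * y.a0 + x.b3 * y.c0 := rfl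
omit [CommRing Λ] [CommRing Λ'] in
@[simp] theorem map_a3 : (map f x).a3 = f x.a3 := rfl
@[simp] theorem zero_b3 : (0 : T Λ).b3 = 0 := rfl
@[simp] theorem one_b3 : (1 : T Λ).b3 = 0 := rfl
@[simp] theorem add_b3 : (x + y).b3 = x.b3 + y.b3 := rfl
@[simp] theorem neg_b3 : (-x).b3 = -x.b3 := rfl
@[simp] theorem smul_b3 : (k • x).b3 = k * x.b3 := rfl
@[simp] theorem mul_b3 : (x * y).b3 =
    x.a0 * y.b3 + x.b0 * y.d3 + x.p0 * y.s2 + x.a1 * y.b2 + x.b1 * y.d2 + x.p1 * y.s1 + x.a2 * y.b1 + x.b2 * y.d1 + x.p2 * y.s0 + x.a3 * y.b0 + x.b3 * y.d0 := rfl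
omit [CommRing Λ] [CommRing Λ'] in
@[simp] theorem map_b3 : (map f x).b3 = f x.b3 := rfl
@[simp] theorem zero_c3 : (0 : T Λ).c3 = 0 := rfl
@[simp] theorem one_c3 : (1 : T Λ).c3 = 0 := rfl
@[simp] theorem add_c3 : (x + y).c3 = x.c3 + y.c3 := rfl
@[simp] theorem neg_c3 : (-x).c3 = -x.c3 := rfl
@[simp] theorem smul_c3 : (k • x).c3 = k * x.c3 := rfl
@[simp] theorem mul_c3 : (x * y).c3 =
    x.c0 * y.a3 + x.d0 * y.c3 + x.q0 * y.r2 + x.c1 * y.a2 + x.d1 * y.c2 + x.q1 * y.r1 + x.c2 * y.a1 + x.d2 * y.c1 + x.q2 * y.r0 + x.c3 * y.a0 + x.d3 * y.c0 := rfl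
omit [CommRing Λ] [CommRing Λ'] in
@[simp] theorem map_c3 : (map f x).c3 = f x.c3 := rfl
@[simp] theorem zero_d3 : (0 : T Λ).d3 = 0 := rfl
@[simp] theorem one_d3 : (1 : T Λ).d3 = 0 := rfl
@[simp] theorem add_d3 : (x + y).d3 = x.d3 + y.d3 := rfl
@[simp] theorem neg_d3 : (-x).d3 = -x.d3 := rfl
@[simp] theorem smul_d3 : (k • x).d3 = k * x.d3 := rfl
@[simp] theorem mul_d3 : (x * y).d3 =
    x.c0 * y.b3 + x.d0 * y.d3 + x.q0 * y.s2 + x.c1 * y.b2 + x.d1 * y.d2 + x.q1 * y.s1 + x.c2 * y.b1 + x.d2 * y.d1 + x.q2 * y.s0 + x.c3 * y.b0 + x.d3 * y.d0 := rfl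
omit [CommRing Λ] [CommRing Λ'] in
@[simp] theorem map_d3 : (map f x).d3 = f x.d3 := rfl
@[simp] theorem zero_e3 : (0 : T Λ).e3 = 0 := rfl
@[simp] theorem one_e3 : (1 : T Λ).e3 = 0 := rfl
@[simp] theorem add_e3 : (x + y).e3 = x.e3 + y.e3 := rfl
@[simp] theorem neg_e3 : (-x).e3 = -x.e3 := rfl
@[simp] theorem smul_e3 : (k • x).e3 = k * x.e3 := rfl
@[simp] theorem mul_e3 : (x * y).e3 =
    x.e0 * y.e3 + x.r0 * y.p2 + x.s0 * y.q2 + x.e1 * y.e2 + x.r1 * y.p1 + x.s1 * y.q1 + x.e2 * y.e1 + x.r2 * y.p0 + x.s2 * y.q0 + x.e3 * y.e0 := rfl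
omit [CommRing Λ] [CommRing Λ'] in
@[simp] theorem map_e3 : (map f x).e3 = f x.e3 := rfl
@[simp] theorem zero_p3 : (0 : T Λ).p3 = 0 := rfl
@[simp] theorem one_p3 : (1 : T Λ).p3 = 0 := rfl
@[simp] theorem add_p3 : (x + y).p3 = x.p3 + y.p3 := rfl
@[simp] theorem neg_p3 : (-x).p3 = -x.p3 := rfl
@[simp] theorem smul_p3 : (k • x).p3 = k * x.p3 := rfl
@[simp] theorem mul_p3 : (x * y).p3 =
    x.a0 * y.p3 + x.b0 * y.q3 + x.p0 * y.e3 + x.a1 * y.p2 + x.b1 * y.q2 + x.p1 * y.e2 + x.a2 * y.p1 + x.b2 * y.q1 + x.p2 * y.e1 + x.a3 * y.p0 + x.b3 * y.q0 + x.p3 * y.e0 := rfl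
omit [CommRing Λ] [CommRing Λ'] in
@[simp] theorem map_p3 : (map f x).p3 = f x.p3 := rfl
@[simp] theorem zero_q3 : (0 : T Λ).q3 = 0 := rfl
@[simp] theorem one_q3 : (1 : T Λ).q3 = 0 := rfl
@[simp] theorem add_q3 : (x + y).q3 = x.q3 + y.q3 := rfl
@[simp] theorem neg_q3 : (-x).q3 = -x.q3 := rfl
@[simp] theorem smul_q3 : (k • x).q3 = k * x.q3 := rfl
@[simp] theorem mul_q3 : (x * y).q3 =
    x.c0 * y.p3 + x.d0 * y.q3 + x.q0 * y.e3 + x.c1 * y.p2 + x.d1 * y.q2 + x.q1 * y.e2 + x.c2 * y.p1 + x.d2 * y.q1 + x.q2 * y.e1 + x.c3 * y.p0 + x.d3 * y.q0 + x.q3 * y.e0 := rfl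
omit [CommRing Λ] [CommRing Λ'] in
@[simp] theorem map_q3 : (map f x).q3 = f x.q3 := rfl
@[simp] theorem zero_r3 : (0 : T Λ).r3 = 0 := rfl
@[simp] theorem one_r3 : (1 : T Λ).r3 = 0 := rfl
@[simp] theorem add_r3 : (x + y).r3 = x.r3 + y.r3 := rfl
@[simp] theorem neg_r3 : (-x).r3 = -x.r3 := rfl
@[simp] theorem smul_r3 : (k • x).r3 = k * x.r3 := rfl
@[simp] theorem mul_r3 : (x * y).r3 =
    x.e0 * y.r3 + x.r0 * y.a3 + x.s0 * y.c3 + x.e1 * y.r2 + x.r1 * y.a2 + x.s1 * y.c2 + x.e2 * y.r1 + x.r2 * y.a1 + x.s2 * y.c1 + x.e3 * y.r0 + x.r3 * y.a0 + x.s3 * y.c0 := rfl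
omit [CommRing Λ] [CommRing Λ'] in
@[simp] theorem map_r3 : (map f x).r3 = f x.r3 := rfl
@[simp] theorem zero_s3 : (0 : T Λ).s3 = 0 := rfl
@[simp] theorem one_s3 : (1 : T Λ).s3 = 0 := rfl
@[simp] theorem add_s3 : (x + y).s3 = x.s3 + y.s3 := rfl
@[simp] theorem neg_s3 : (-x).s3 = -x.s3 := rfl
@[simp] theorem smul_s3 : (k • x).s3 = k * x.s3 := rfl
@[simp] theorem mul_s3 : (x * y).s3 =
    x.e0 * y.s3 + x.r0 * y.b3 + x.s0 * y.d3 + x.e1 * y.s2 + x.r1 * y.b2 + x.s1 * y.d2 + x.e2 * y.s1 + x.r2 * y.b1 + x.s2 * y.d1 + x.e3 * y.s0 + x.r3 * y.b0 + x.s3 * y.d0 := rfl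
omit [CommRing Λ] [CommRing Λ'] in
@[simp] theorem map_s3 : (map f x).s3 = f x.s3 := rfl

end

instance : Ring (T Λ) := Ring.ofMinimalAxioms
  (fun _ _ _ => by ext <;> simp [add_assoc])
  (fun _ => by ext <;> simp)
  (fun _ => by ext <;> simp)
  (fun _ _ _ => by ext <;> simp <;> ring)
  (fun _ => by ext <;> simp)
  (fun _ => by ext <;> simp)
  (fun _ _ _ => by ext <;> simp <;> ring)
  (fun _ _ _ => by ext <;> simp <;> ring)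

instance : Module Λ (T Λ) := Module.ofMinimalAxioms
  (fun _ _ _ => by ext <;> simp [mul_add])
  (fun _ _ _ => by ext <;> simp [add_mul])
  (fun _ _ _ => by ext <;> simp [mul_assoc])
  (fun _ => by ext <;> simp)

instance : Algebra Λ (T Λ) := Algebra.ofModule
  (fun _ _ _ => by ext <;> simp <;> ring)
  (fun _ _ _ => by ext <;> simp <;> ring)

theorem map_mul (f : Λ →+* Λ') (x y : T Λ) : map f (x * y) = map f x * map f y := by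
  ext <;> simp

theorem map_add (f : Λ →+* Λ') (x y : T Λ) : map f (x + y) = map f x + map f y := by
  ext <;> simp

theorem map_neg (f : Λ →+* Λ') (x : T Λ) : map f (-x) = -map f x := by
  ext <;> simp

theorem map_smul (f : Λ →+* Λ') (k : Λ) (x : T Λ) : map f (k • x) = f k • map f x := by
  ext <;> simp

end T

end Pool.Agent.MP_570645_al.H38
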