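import Pool.Agent.MP_570645_al.H38.Eps

/-! The multilinear identities of the Lie rings of relatively free groups of prime exponent. -/

set_option autoImplicit false

namespace Pool.Agent.MP_570645_al.H38

open Finset H18
open scoped commutatorElement

variable {G : Type} [Group G]

/-- Products of commutators with at least `k` entries `x 0` and an entry `x i` for `i ∈ S`. -/
inductive CC (x : ℕ → G) : ℕ → Finset ℕ → G → Prop
  | top (g : G) : CC x 0 ∅ g
  | z : CC x 1 ∅ (x 0)
  | gen (i : ℕ) : CC x 0 {i} (x i)
  | one (k : ℕ) (S : Finset ℕ) : CC x k S 1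
  | mul {k : ℕ} {S : Finset ℕ} {a b : G} : CC x k S a → CC x k S b → CC x k S (a * b)
  | inv {k : ℕ} {S : Finset ℕ} {a : G} : CC x k S a → CC x k S a⁻¹
  | comm {k l : ℕ} {S T : Finset ℕ} {a b : G} : CC x k S a → CC x l T b →
      CC x (k + l) (S ∪ T) ⁅a, b⁆
  | mono {k l : ℕ} {S T : Finset ℕ} {a : G} : CC x k S a → l ≤ k → T ⊆ S → CC x l T a

theorem CC.mem {x : ℕ → G} {k : ℕ} {S : Finset ℕ} {g : G} (h : CC x k S g) :
    g ∈ gam G (k + S.card - 1) := by
  induction h with
  | top g => exact mem0 g
  | z => exact mem0 _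
  | gen i => exact mem0 _
  | one k S => exact one_mem _
  | mul _ _ h h' => exact mul_mem h h'
  | inv _ h => exact inv_mem h
  | @comm k l S T a b _ _ h h' =>
    exact gam_anti (by have := card_union_le S T; omega) (gam_comm h h')
  | mono _ h1 h2 h => exact gam_anti (by have := card_le_card h2; omega) h

theorem CC.conj {x : ℕ → G} {k : ℕ} {S : Finset ℕ} {a : G} (h : CC x k S a) (g : G) :
    CC x k S (g * a * g⁻¹) := by
  have e : g * a * g⁻¹ = ⁅g, a⁆ * a := by simp [commutatorElement_def]
  rw [e]
  exact (((CC.top g).comm h).mono (by omega) subset_union_right).mul h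

theorem CC.dev {x : ℕ → G} (hx : FreeOn x) {α : G →* G} {i : ℕ} (hi : i ≠ 0) (h1 : α (x i) = 1)
    (h2 : ∀ m, m ≠ i → α (x m) = x m) {k : ℕ} {S : Finset ℕ} {g : G} (h : CC x k S g) :
    CC x k (insert i S) (dev α g) := by
  have e0 : H18.dev α 1 = 1 := by simp [H18.dev]
  have e1 : H18.dev α (x i) = (x i)⁻¹ := by rw [H18.dev, h1, one_mul]
  have e2 : ∀ m, m ≠ i → H18.dev α (x m) = 1 := fun m hm => by rw [H18.dev, h2 m hm, mul_inv_cancel]
  induction h with
  | top g =>
    refine hx.grp_ind (P := fun g => CC x 0 (insert i ∅) (H18.dev α g)) ?_ ?_ ?_ ?_ g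
    · rw [e0]; exact CC.one _ _
    · intro a b h h'; rw [dev_mul]; exact h.mul (h'.conj a)
    · intro a h; rw [dev_inv]; exact h.inv.conj _
    · intro m
      by_cases hm : m = i
      · rw [hm, e1]; exact (CC.gen i).inv
      · rw [e2 m hm]; exact CC.one _ _
  | z => rw [e2 0 hi.symm]; exact CC.one _ _
  | gen j =>
    by_cases hm : j = i
    · rw [hm, e1]; exact (CC.gen i).inv.mono le_rfl (by simp)
    · rw [e2 j hm]; exact CC.one _ _
  | one k S => rw [e0]; exact CC.one _ _
  | mul _ _ h h' => rw [dev_mul]; exact h.mul (h'.conj _)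
  | inv _ h => rw [dev_inv]; exact h.inv.conj _
  | @comm k l S T a b ha hb h h' =>
    rw [dev_comm]
    refine (CC.mul (CC.conj ?_ _) ?_).mul (CC.conj ?_ _)
    · exact (ha.comm h').mono le_rfl (by rw [union_insert])
    · exact (((h.mono (Nat.zero_le _) (T := {i}) (by simp)).mul
        (h'.mono (Nat.zero_le _) (by simp))).comm (ha.comm hb)).mono (by omega)
        (by rw [insert_eq])
    · exact (h.comm ((h'.mono le_rfl (subset_insert _ _)).mul hb)).mono le_rfl
        (by rw [insert_union])
  | mono _ h3 h4 h => exact h.mono h3 (insert_subset_insert _ h4)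

theorem CC_two (x : ℕ → G) (n : NZ (x 0)) (hn : n ∈ gam (NZ (x 0)) 1) : CC x 2 ∅ (n : G) := by
  have h0 : ∀ a : NZ (x 0), CC x 1 ∅ (a : G) :=
    NZ_ind (x 0) (CC.one _ _) (fun a b h h' => h.mul h') (fun a h => h.inv)
      fun h a ha => by rw [ha]; exact CC.z.conj h
  exact gam_succ_ind (i := 0) (P := fun n : NZ (x 0) => CC x 2 ∅ (n : G)) (CC.one _ _)
    (fun a b _ _ h h' => h.mul h') (fun a _ h => h.inv)
    (fun a b _ => ((h0 a).comm (h0 b)).mono le_rfl (by simp)) hn

section Itl

variable {ι : Type}

/-- The iterated commutator along a word. -/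
def itl (y : ι → G) (z : G) (s : List ι) : G := s.foldr (fun i w => ⁅y i, w⁆) z

theorem itl_cons (y : ι → G) (z : G) (a : ι) (s : List ι) :
    itl y z (a :: s) = ⁅y a, itl y z s⁆ := rfl

theorem itl_mem (y : ι → G) (z : G) (s : List ι) : itl y z s ∈ gam G s.length := by
  induction s with
  | nil => exact mem0 _
  | cons a s ih => have := gam_comm (mem0 (y a)) ih; rwa [Nat.zero_add] at this

theorem cls_itl (y : ι → G) (z : G) (s : List ι) :
    cls s.length (itl y z s) = act (s.map fun i => cls 0 (y i)) (cls 0 z) := by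
  induction s with
  | nil => rfl
  | cons a s ih =>
    rw [List.map_cons, act_cons, ← ih, lie_cls (mem0 _) (itl_mem y z s), Nat.zero_add]; rfl

theorem itl_NZ (y : ι → G) (z : G) (s : List ι) : itl y z s ∈ NZ z := by
  induction s with
  | nil => exact z_mem z
  | cons a s ih =>
    rw [itl_cons, commutatorElement_def]
    exact mul_mem (Subgroup.Normal.conj_mem inferInstance _ ih _) (inv_mem ih)

theorem map_itl (α : G →* G) (y : ι → G) (z : G) (s : List ι) :
    α (itl y z s) = itl (fun i => α (y i)) (α z) s := by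
  induction s with
  | nil => rfl
  | cons a s ih => rw [itl_cons, itl_cons, map_commutatorElement, ih]

theorem itl_one (y : ι → G) (z : G) (s : List ι) {i : ι} (hi : i ∈ s) (h : y i = 1) :
    itl y z s = 1 := by
  induction s with
  | nil => simp at hi
  | cons a s ih =>
    rw [itl_cons]
    rcases List.mem_cons.1 hi with rfl | hi
    · rw [h, commutatorElement_one_left]
    · rw [ih hi, commutatorElement_one_right]

theorem itl_congr {y y' : ι → G} (z : G) (s : List ι) (h : ∀ i ∈ s, y i = y' i) :
    itl y z s = itl y' z s := by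
  induction s with
  | nil => rfl
  | cons a s ih =>
    rw [itl_cons, itl_cons, h a List.mem_cons_self, ih fun i hi => h i (List.mem_cons_of_mem _ hi)]

/-- The class of an iterated commutator in the abelianised normal closure. -/
noncomputable def cz (y : ι → G) (z : G) (s : List ι) : AL (NZ z) :=
  cls 0 (⟨itl y z s, itl_NZ y z s⟩ : NZ z)

theorem conj_expand (y : ι → G) (z : G) (l : List ι) :
    cls 0 (MulAut.conjNormal (l.map y).prod (⟨z, z_mem z⟩ : NZ z)) =
      (l.sublists'.map (cz y z)).sum := by
  induction l with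
  | nil => simp [cz, itl]
  | cons a l ih =>
    have h := congrArg (ind (MulAut.conjNormal (H := NZ z) (y a)).toMonoidHom) ih
    rw [ind_cls _ (mem0 _), map_list_sum, List.map_map] at h
    rw [List.map_cons, List.prod_cons, map_mul, List.sublists'_cons, List.map_append,
      List.sum_append, List.map_map, ← List.sum_map_add]
    refine h.trans (congrArg List.sum (List.map_congr_left fun s _ => ?_))
    simp only [Function.comp_apply, cz]
    rw [ind_cls _ (mem0 _), add_comm, ← cls_mul (mem0 _) (mem0 _)]
    congr 1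
    apply Subtype.ext
    simp [itl_cons, commutatorElement_def, MulAut.conjNormal_apply]

end Itl

theorem sum_conj {p : ℕ} (he : ∀ g : G, g ^ p = 1) (z g : G) :
    ∑ j ∈ range p, cls 0 (MulAut.conjNormal (g ^ j) (⟨z, z_mem z⟩ : NZ z)) = 0 := by
  have hq : ∀ k, ∃ n : NZ z, (n : G) = (z * g) ^ k * (g ^ k)⁻¹ ∧
      cls 0 n = ∑ j ∈ range k, cls 0 (MulAut.conjNormal (g ^ j) (⟨z, z_mem z⟩ : NZ z)) := by
    intro k
    induction k with
    | zero => exact ⟨1, by simp, by simp [cls_one]⟩
    | succ k ih =>
      obtain ⟨n, h1, h2⟩ := ih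
      refine ⟨n * MulAut.conjNormal (g ^ k) (⟨z, z_mem z⟩ : NZ z), ?_, ?_⟩
      · rw [Subgroup.coe_mul, h1, MulAut.conjNormal_apply, pow_succ (z * g), pow_succ g]
        simp [mul_assoc]
      · rw [cls_mul (mem0 _) (mem0 _), h2, sum_range_succ]
  obtain ⟨m, h3, h4⟩ := hq p
  have hm : m = 1 := Subtype.ext (by rw [h3, he, he]; simp)
  rw [← h4, hm, cls_one]

theorem sum_cz {p n : ℕ} (he : ∀ g : G, g ^ p = 1) (y : Fin n → G) (z : G) :
    ((allW p n).map (cz y z)).sum = 0 := by
  rw [sum_allW, ← sum_conj he z ((List.finRange n).map y).prod]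
  refine sum_congr rfl fun j _ => ?_
  rw [← conj_expand, List.map_flatten, List.prod_flatten, List.map_replicate, List.map_replicate,
    List.prod_replicate]

theorem moebius {A ι : Type} [AddCommGroup A] [Fintype ι] [DecidableEq ι] (l : List (List ι))
    (c : List ι → A)
    (h : ∀ S : Finset ι, (l.map fun s => if s.toFinset ⊆ S then c s else 0).sum = 0)
    (S : Finset ι) : (l.map fun s => if s.toFinset = S then c s else 0).sum = 0 := by
  have h1 : ∀ S : Finset ι, ∑ T ∈ S.powerset,
      (l.map fun s => if s.toFinset = T then c s else 0).sum =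
      (l.map fun s => if s.toFinset ⊆ S then c s else 0).sum := fun S => by
    clear h
    induction l with
    | nil => simp
    | cons a l ih =>
      simp only [List.map_cons, List.sum_cons, sum_add_distrib, ih, sum_ite_eq, mem_powerset]
  induction S using Finset.strongInduction with
  | H S ih =>
    have := (h1 S).trans (h S)
    rw [← add_sum_erase _ _ (mem_powerset_self S), sum_eq_zero, add_zero] at this
    · exact this
    · intro T hT
      rw [mem_erase, mem_powerset] at hT
      exact ih T (ssubset_of_ne_of_subset hT.1 hT.2)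

theorem cls_list_prod {ι : Type} {k : ℕ} (l : List ι) (f : ι → G) (h : ∀ i ∈ l, f i ∈ gam G k) :
    cls k (l.map f).prod = (l.map fun i => cls k (f i)).sum := by
  induction l with
  | nil => exact cls_one k
  | cons a l ih =>
    have h' : ∀ i ∈ l, f i ∈ gam G k := fun i hi => h i (List.mem_cons_of_mem _ hi)
    rw [List.map_cons, List.prod_cons, List.map_cons, List.sum_cons, ← ih h',
      cls_mul (h a List.mem_cons_self) (list_prod_mem fun g hg => ?_)]
    obtain ⟨i, hi, rfl⟩ := List.mem_map.1 hg
    exact h' i hi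

theorem wall_gen {x : ℕ → G} (hx : FreeOn x) {p : ℕ} (he : ∀ g : G, g ^ p = 1) (n : ℕ) :
    ((wallW p n).map fun s => act (s.map fun i : Fin n => cls 0 (x (i + 1))) (cls 0 (x 0))).sum =
      0 := by
  classical
  let y : Fin n → G := fun i => x (i + 1)
  have h1 := moebius (allW p n) (cz y (x 0)) (fun S => by
    refine Eq.trans (congrArg List.sum (List.map_congr_left fun s _ => ?_))
      (sum_cz he (fun i => if i ∈ S then y i else 1) (x 0))
    split_ifs with hs
    · unfold cz
      congr 2
      exact itl_congr _ _ fun i hi => (if_pos (hs (List.mem_toFinset.2 hi))).symm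
    · obtain ⟨i, hi, hi'⟩ := not_subset.1 hs
      unfold cz
      rw [← cls_one (G := NZ (x 0)) 0]
      congr 1
      exact Subtype.ext (itl_one _ _ _ (List.mem_toFinset.1 hi) (if_neg hi')).symm) univ
  set W := (allW p n).filter fun s => s.toFinset = univ with hW
  have hWm : ∀ s ∈ W, ∀ i, i ∈ s := fun s hs i => by
    have := (List.mem_filter.1 hs).2
    rw [decide_eq_true_eq] at this
    exact List.mem_toFinset.1 (this ▸ mem_univ i)
  have hsub : ∀ s : List (Fin n), (∀ i, i ∈ s) → (List.finRange n).Subperm s := fun s hs =>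
    (List.nodup_finRange n).subperm fun i _ => hs i
  have hlen : ∀ s : List (Fin n), (∀ i, i ∈ s) → n ≤ s.length := fun s hs => by
    simpa using (hsub s hs).length_le
  let N : NZ (x 0) := (W.map fun s => (⟨itl y (x 0) s, itl_NZ _ _ s⟩ : NZ (x 0))).prod
  have hN : (N : G) = (W.map (itl y (x 0))).prod := by
    change (NZ (x 0)).subtype _ = _
    rw [map_list_prod, List.map_map]; rfl
  have h2 : N ∈ gam (NZ (x 0)) 1 := by
    refine (cls_eq_zero_iff (mem0 N)).1 ?_
    rw [cls_list_prod _ _ fun _ _ => mem0 _, ← h1, hW, sum_filter_ite]; rfl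
  have h3 : ∀ S : Finset (Fin n), CC x 2 (S.image fun i : Fin n => (i : ℕ) + 1) (N : G) := by
    intro S
    induction S using Finset.induction_on with
    | empty => exact CC_two x N h2
    | insert i S _ ih =>
      obtain ⟨α, hα⟩ := hx.ext fun m => if m = i + 1 then 1 else x m
      have h4 : α N = 1 := by
        rw [hN, map_list_prod, List.map_map]
        refine List.prod_eq_one fun g hg => ?_
        obtain ⟨s, hs, rfl⟩ := List.mem_map.1 hg
        rw [Function.comp_apply, map_itl]
        exact itl_one _ _ _ (hWm s hs i) (by rw [hα, if_pos rfl])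
      have h5 := (ih.dev hx (Nat.succ_ne_zero i) (by rw [hα, if_pos rfl])
        fun m hm => by rw [hα, if_neg hm]).inv
      rw [H18.dev, h4, one_mul, inv_inv] at h5
      rwa [image_insert]
  have h6 := (h3 univ).mem
  rw [card_image_of_injective _ fun i j h => Fin.ext (Nat.succ_injective h), card_univ,
    Fintype.card_fin, show 2 + n - 1 = n + 1 by omega] at h6
  have h7 := cls_succ h6
  rw [hN, cls_list_prod _ _ fun s hs => gam_anti (hlen s (hWm s hs)) (itl_mem _ _ s), hW,
    sum_filter_ite] at h7
  rw [← h7, wallW, sum_filter_ite]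
  refine congrArg List.sum (List.map_congr_left fun s _ => ?_)
  by_cases hp : s.Perm (List.finRange n)
  · have hl : s.length = n := by rw [hp.length_eq, List.length_finRange]
    rw [if_pos hp, if_pos (eq_univ_of_forall fun i =>
      List.mem_toFinset.2 (hp.mem_iff.2 (List.mem_finRange i))), ← cls_itl, hl]
  · rw [if_neg hp]
    split_ifs with hs
    · have hm : ∀ i, i ∈ s := fun i => List.mem_toFinset.1 (hs ▸ mem_univ i)
      have : n + 1 ≤ s.length := by
        by_contra hc
        exact hp ((hsub s hm).perm_of_length_le (by rw [List.length_finRange]; omega)).symm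
      exact (cls_succ (gam_anti this (itl_mem _ _ s))).symm
    · rfl

section Ext

variable {A B : Type} [LieRing A] [LieRing B] {n : ℕ}

/-- A sum of left-normed products with the entry `b 0` innermost. -/
def KK (W : List (List (Fin n))) (b : Fin (n + 1) → A) : A :=
  (W.map fun s => act ((s.map Fin.succ).map b) (b 0)).sum

theorem map_KK (W : List (List (Fin n))) (φ : A →ₗ⁅ℤ⁆ B) (b : Fin (n + 1) → A) :
    φ (KK W b) = KK W (φ ∘ b) := by
  rw [KK, KK, map_list_sum, List.map_map]
  refine congrArg List.sum (List.map_congr_left fun s _ => ?_)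
  rw [Function.comp_apply, map_act, List.map_map]; rfl

theorem KK_slot (W : List (List (Fin n))) (hW : ∀ s ∈ W, s.Perm (List.finRange n))
    (b : Fin (n + 1) → A) (k : Fin (n + 1)) : ∃ T : A →+ A,
    (∀ y, KK W (Function.update b k y) = T y) ∧
      ∀ D : LieDerivation ℤ A A, (∀ i, i ≠ k → D (b i) = 0) → ∀ y, D (T y) = T (D y) := by
  induction W with
  | nil => exact ⟨0, fun _ => rfl, fun D _ _ => map_zero D⟩
  | cons s W ih =>
    obtain ⟨T, h1, h2⟩ := ih fun t ht => hW t (List.mem_cons_of_mem _ ht)
    have hs := hW s List.mem_cons_self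
    obtain ⟨T', h3, h4⟩ := slot b 0 k (s.map Fin.succ)
      (List.nodup_cons.2 ⟨by simp, (hs.nodup_iff.2 (List.nodup_finRange n)).map
        (Fin.succ_injective _)⟩)
      (by
        rcases Fin.eq_zero_or_eq_succ k with rfl | ⟨m, rfl⟩
        · exact List.mem_cons_self
        · exact List.mem_cons_of_mem _
            (List.mem_map_of_mem (hs.mem_iff.2 (List.mem_finRange m))))
    refine ⟨T' + T, fun y => ?_, fun D hD y => ?_⟩
    · rw [AddMonoidHom.add_apply, ← h1, ← h3]; rfl
    · rw [AddMonoidHom.add_apply, AddMonoidHom.add_apply, map_add, h2 D hD, h4 D hD]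

end Ext

theorem KK_ext {x : ℕ → G} (hx : FreeOn x) {n : ℕ} (W : List (List (Fin n)))
    (hW : ∀ s ∈ W, s.Perm (List.finRange n))
    (base : ∀ g : Fin (n + 1) → G, KK W (fun i => cls 0 (g i)) = 0) (u : Fin (n + 1) → AL G) :
    KK W u = 0 := by
  classical
  obtain ⟨o, ho⟩ := hx.ext fun n => x (2 * n + 1)
  choose g hg using fun n => AL_split (u n)
  have main : ∀ S : Finset (Fin (n + 1)), KK W (fun i => cls 0 (x (2 * i)) +
      if i ∈ S then ind o (u i - cls 0 (g i)) else 0) = 0 := by
    intro S
    induction S using Finset.induction_on with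
    | empty => simpa using base fun i => x (2 * i)
    | insert k S hk ih =>
      set b : Fin (n + 1) → AL G := fun i => cls 0 (x (2 * i)) +
        if i ∈ S then ind o (u i - cls 0 (g i)) else 0 with hb
      obtain ⟨T, h1, h2⟩ := KK_slot W hW b k
      have h3 : T (cls 0 (x (2 * k))) = 0 := by
        rw [← h1, ← ih]
        congr 1
        rw [Function.update_eq_self_iff, hb]
        simp [hk]
      have h4 : ∀ c ∈ AddSubmonoid.closure
          {b : AL G | ∃ w y, y ∈ gam G (w + 1) ∧ b = cls (w + 1) y}, T (ind o c) = 0 := by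
        intro c hc
        induction hc using AddSubmonoid.closure_induction with
        | zero => rw [map_zero, map_zero]
        | add c c' _ _ h h' => rw [map_add, map_add, h, h', add_zero]
        | mem c hc =>
          obtain ⟨w, y, hy, rfl⟩ := hc
          obtain ⟨D, hD1, hD2, hD3⟩ := hx.exists_der ho k (w + 1) (by omega) hy
          rw [← hD1, ← h2 D, h3, map_zero]
          intro i hi
          have : (i : ℕ) ≠ k := fun h => hi (Fin.ext h)
          simp only [hb]
          rw [map_add, hD2 _ (by omega), zero_add]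
          split_ifs
          · exact hD3 _
          · exact map_zero _
      have e : (fun i : Fin (n + 1) => cls 0 (x (2 * i)) +
          if i ∈ insert k S then ind o (u i - cls 0 (g i)) else 0) =
          Function.update b k (cls 0 (x (2 * k)) + ind o (u k - cls 0 (g k))) := by
        funext i
        by_cases hi : i = k
        · subst hi; simp
        · simp [hi, hb]
      rw [e, h1, map_add, h3, h4 _ (hg k), add_zero]
  obtain ⟨κ, hκ⟩ := hx.ext fun m =>
    if m % 2 = 0 then (if h : m / 2 < n + 1 then g ⟨m / 2, h⟩ else 1) else x (m / 2)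
  have hκo : ∀ a, ind κ (ind o a) = a :=
    hx.lie_ext (φ := (ind κ).comp (ind o)) (ψ := LieHom.id) fun m => by
      rw [LieHom.comp_apply, ind_cls o (mem0 _), ho, ind_cls κ (mem0 _), hκ, if_neg (by omega),
        show (2 * m + 1) / 2 = m by omega]; rfl
  have h := congrArg (ind κ) (main univ)
  rw [map_KK, map_zero] at h
  rw [← h]
  congr 1
  funext i
  have h5 : κ (x (2 * i)) = g i := by
    have e : 2 * (i : ℕ) / 2 = i := by omega
    rw [hκ, if_pos (by omega), dif_pos (by rw [e]; exact i.2)]
    congr 1
    exact Fin.ext e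
  simp only [Function.comp_apply, mem_univ, if_true]
  rw [map_add, hκo, ind_cls κ (mem0 _), h5, add_sub_cancel]

theorem wall_all {x : ℕ → G} (hx : FreeOn x) {p : ℕ} (he : ∀ g : G, g ^ p = 1) (n : ℕ)
    (u : Fin (n + 1) → AL G) : KK (wallW p n) u = 0 := by
  refine KK_ext hx _ (fun s hs => by simpa using (List.mem_filter.1 hs).2) (fun g => ?_) u
  obtain ⟨θ, hθ⟩ := hx.ext fun m => if h : m < n + 1 then g ⟨m, h⟩ else 1
  have h1 : KK (wallW p n) (fun i : Fin (n + 1) => cls 0 (x i)) = 0 := by
    rw [← wall_gen hx he n, KK]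
    refine congrArg List.sum (List.map_congr_left fun s _ => ?_)
    rw [List.map_map]; rfl
  have h2 := congrArg (ind θ) h1
  rw [map_KK, map_zero] at h2
  rw [← h2]
  congr 1
  funext i
  rw [Function.comp_apply, ind_cls θ (mem0 _), hθ, dif_pos i.2]

end Pool.Agent.MP_570645_al.H38
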